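import Pool.Agent.Helper31.EC.PM

/-! CORNERm v4 sect. 0: the numbers of a homogeneous corner, in an entropy lattice.
`F` = base label (`⊥` for `T`, `be s` for `T | be s`), `q` = all digits of the base point, `M k` = the lower vertical
coordinates to level `k`, `z k` = the top coordinate to level `k`, `be s` = the box of scale `s`; levels in `[0, B]`,
scales in `[0, B / w]`. -/

set_option autoImplicit false

namespace Pool.Agent.Helper33.CM

open Pool.Agent.Helper31.EC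

variable {L : Type*} [PM L]

/-- `h(A|C) = h(A|B,C) + I(A;B|C)` -/
theorem h_add_I (A B C : L) : h A C = h A (B ⊔ C) + I A B C := by
  rw [I_eq]; ring

/-- `B ≤ A ⊔ C`: `h(A|C) = h(B|C) + h(A|B,C)` -/
theorem h_split {A B C : L} (hB : B ≤ A ⊔ C) : h A C = h B C + h A (B ⊔ C) := by
  rw [← h_chain]
  exact h_congr_left (le_sup_right.trans le_sup_left) (sup_le hB le_sup_left)

/-- the homogeneous corner: hypotheses -/
structure HCor (L : Type*) [PM L] where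
  F : L
  q : L
  M : ℝ → L
  z : ℝ → L
  be : ℝ → L
  B : ℝ
  N : ℝ
  W : ℝ
  d : ℝ
  w : ℝ
  A₀ : ℝ
  hB : 0 ≤ B
  hw : 0 < w
  Fq : F ≤ q
  monoM : ∀ ⦃k k' : ℝ⦄, 0 ≤ k → k ≤ k' → k' ≤ B → M k ≤ M k'
  monoz : ∀ ⦃k k' : ℝ⦄, 0 ≤ k → k ≤ k' → k' ≤ B → z k ≤ z k'
  /-- homogeneity: information of the box -/
  hbe : ∀ ⦃s : ℝ⦄, 0 ≤ s → w * s ≤ B → h (be s) F = A₀ * s
  /-- (PR): the base point is full, also given the box -/
  pr0 : ∀ ⦃s : ℝ⦄, 0 ≤ s → w * s ≤ B → I (be s) q F = d * s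
  /-- (PR): the lower coordinates are full given the base point -/
  pr1 : ∀ ⦃k : ℝ⦄, 0 ≤ k → k ≤ B → h (M k) q = N * k
  /-- (PR): also given the box -/
  pr2 : ∀ ⦃s k : ℝ⦄, 0 ≤ s → w * s ≤ k → k ≤ B → h (M k) (be s ⊔ q) = N * k - W * s
  /-- thickness of the box in the top direction -/
  zk : ∀ ⦃s : ℝ⦄, 0 ≤ s → w * s ≤ B → z (w * s) ≤ be s ⊔ (M (w * s) ⊔ q)

namespace HCor

variable (T : HCor L)

/-- all digits of the lower point -/
def O : L := T.M T.B ⊔ T.q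

theorem q_le_O : T.q ≤ T.O := le_sup_right

theorem F_le_O : T.F ≤ T.O := T.Fq.trans T.q_le_O

/-- the point to level `k` -/
def R (k : ℝ) : L := T.z k ⊔ T.M k

/-- `1 - ρ` -/
noncomputable def κ : ℝ := (T.A₀ - T.d - T.W) / T.w

theorem κ_mul : T.κ * T.w = T.A₀ - T.d - T.W := by
  have := T.hw
  unfold κ; field_simp

/-- information of the box given the base point -/
theorem h_be_q {s : ℝ} (hs : 0 ≤ s) (hs' : T.w * s ≤ T.B) : h (T.be s) T.q = (T.A₀ - T.d) * s := by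
  have h1 := T.hbe hs hs'
  have h2 := T.pr0 hs hs'
  have h3 := h_add_I (T.be s) T.q T.F
  rw [sup_eq_left.mpr T.Fq] at h3
  linarith

/-- information of the box given all digits of the lower point -/
theorem h_be_O {s : ℝ} (hs : 0 ≤ s) (hs' : T.w * s ≤ T.B) : h (T.be s) T.O = T.κ * (T.w * s) := by
  have h1 := T.h_be_q hs hs'
  have h2 := T.pr1 T.hB le_rfl
  have h3 := T.pr2 hs hs' le_rfl
  have h4 := h_add_I (T.be s) (T.M T.B) T.q
  have h5 : I (T.be s) (T.M T.B) T.q = h (T.M T.B) T.q - h (T.M T.B) (T.be s ⊔ T.q) := I_eq' _ _ _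
  have h6 := T.κ_mul
  have h7 : T.κ * (T.w * s) = (T.A₀ - T.d - T.W) * s := by rw [← mul_assoc, h6]
  unfold O
  rw [h7]
  nlinarith

/-- the defect `δ(s) = h(be s | lower point, z to level w s)` -/
noncomputable def del (s : ℝ) : ℝ := h (T.be s) (T.z (T.w * s) ⊔ T.O)

theorem z_le {s : ℝ} (hs : 0 ≤ s) (hs' : T.w * s ≤ T.B) : T.z (T.w * s) ≤ T.be s ⊔ T.O := by
  have h0 : 0 ≤ T.w * s := mul_nonneg T.hw.le hs
  refine (T.zk hs hs').trans (sup_le le_sup_left ?_)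
  exact le_trans (sup_le_sup_right (T.monoM h0 hs' le_rfl) T.q) le_sup_right

/-- `h(z_(w s) | lower point) = (1 - ρ) w s - δ(s)` -/
theorem h_z_O_del {s : ℝ} (hs : 0 ≤ s) (hs' : T.w * s ≤ T.B) :
    h (T.z (T.w * s)) T.O = T.κ * (T.w * s) - T.del s := by
  have h1 := T.h_be_O hs hs'
  have h2 : h (T.be s) T.O = h (T.z (T.w * s)) T.O + h (T.be s) (T.z (T.w * s) ⊔ T.O) := h_split (T.z_le hs hs')
  unfold del
  linarith

/-- hypothesis `δ = 0` -/
def Vis : Prop := ∀ ⦃s : ℝ⦄, 0 ≤ s → T.w * s ≤ T.B → T.be s ≤ T.z (T.w * s) ⊔ T.O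

variable {T}

theorem Vis.del (hv : T.Vis) {s : ℝ} (hs : 0 ≤ s) (hs' : T.w * s ≤ T.B) : T.del s = 0 := h_zero (hv hs hs')

/-- (D), from the bottom -/
theorem Vis.h_z_O (hv : T.Vis) {k : ℝ} (hk : 0 ≤ k) (hk' : k ≤ T.B) : h (T.z k) T.O = T.κ * k := by
  have hw := T.hw
  have e : T.w * (k / T.w) = k := by field_simp
  have h1 := T.h_z_O_del (s := k / T.w) (by positivity) (by rw [e]; exact hk')
  rw [hv.del (by positivity) (by rw [e]; exact hk'), e] at h1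
  linarith

theorem Vis.be_le (hv : T.Vis) {s k : ℝ} (hs : 0 ≤ s) (hsk : T.w * s ≤ k) (hk : k ≤ T.B) :
    T.be s ≤ T.z k ⊔ T.O :=
  (hv hs (hsk.trans hk)).trans (sup_le_sup_right (T.monoz (mul_nonneg T.hw.le hs) hsk hk) _)

/-- (D) given the box -/
theorem Vis.h_z_be (hv : T.Vis) {s k : ℝ} (hs : 0 ≤ s) (hsk : T.w * s ≤ k) (hk : k ≤ T.B) :
    h (T.z k) (T.be s ⊔ T.O) = T.κ * (k - T.w * s) := by
  have h0 : 0 ≤ T.w * s := mul_nonneg T.hw.le hs
  have h1 := h_split (hv.be_le hs hsk hk)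
  have h2 := hv.h_z_O (h0.trans hsk) hk
  have h3 := T.h_be_O hs (hsk.trans hk)
  have h4 : h (T.z k) (T.be s ⊔ T.O) = T.κ * k - T.κ * (T.w * s) := by linarith
  rw [h4]; ring

/-- (D) -/
theorem Vis.D (hv : T.Vis) {s a b : ℝ} (hs : 0 ≤ s) (hsa : T.w * s ≤ a) (hab : a ≤ b) (hb : b ≤ T.B) :
    h (T.z b) (T.z a ⊔ (T.be s ⊔ T.O)) = T.κ * (b - a) := by
  have h0 : 0 ≤ T.w * s := mul_nonneg T.hw.le hs
  have h1 := hv.h_z_be hs (hsa.trans hab) hb
  have h2 := hv.h_z_be hs hsa (hab.trans hb)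
  have h3 : h (T.z b) (T.be s ⊔ T.O) = h (T.z a) (T.be s ⊔ T.O) + h (T.z b) (T.z a ⊔ (T.be s ⊔ T.O)) :=
    h_split ((T.monoz (h0.trans hsa) hab hb).trans le_sup_left)
  linarith [mul_sub T.κ b a, mul_sub T.κ b (T.w * s), mul_sub T.κ a (T.w * s)]

/-- (0.1): the box is a function of the base point and of the point to level `w s` -/
theorem Vis.be_le_R0 (hv : T.Vis) {s : ℝ} (hs : 0 ≤ s) (hs' : T.w * s ≤ T.B) :
    T.be s ≤ T.R (T.w * s) ⊔ T.q := by
  have h0 : 0 ≤ T.w * s := mul_nonneg T.hw.le hs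
  apply h_le_zero_iff.mp
  set k := T.w * s with hkd
  have e1 : T.M T.B ⊔ (T.R k ⊔ T.q) = T.z k ⊔ T.O := by
    unfold R O
    apply le_antisymm
    · refine sup_le (le_sup_left.trans le_sup_right) (sup_le (sup_le le_sup_left ?_) (le_sup_right.trans le_sup_right))
      exact (T.monoM h0 hs' le_rfl).trans (le_sup_left.trans le_sup_right)
    · refine sup_le ?_ (sup_le le_sup_left (le_sup_right.trans le_sup_right))
      exact (le_sup_left.trans le_sup_left).trans le_sup_right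
  have h1 := h_add_I (T.be s) (T.M T.B) (T.R k ⊔ T.q)
  rw [e1, h_zero (hv hs hs')] at h1
  have h2 : I (T.be s) (T.M T.B) (T.R k ⊔ T.q) = h (T.M T.B) (T.R k ⊔ T.q) - h (T.M T.B) (T.be s ⊔ (T.R k ⊔ T.q)) :=
    I_eq' _ _ _
  -- upper bound
  have hMk : T.M k ≤ T.M T.B := T.monoM h0 hs' le_rfl
  have h3 : h (T.M T.B) (T.R k ⊔ T.q) ≤ h (T.M T.B) (T.M k ⊔ T.q) :=
    h_anti (sup_le_sup_right le_sup_right T.q)
  have h4 : h (T.M T.B) T.q = h (T.M k) T.q + h (T.M T.B) (T.M k ⊔ T.q) := h_split (hMk.trans le_sup_left)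
  have h5 := T.pr1 T.hB le_rfl
  have h6 := T.pr1 h0 hs'
  -- lower bound
  have e2 : T.be s ⊔ (T.R k ⊔ T.q) = T.M k ⊔ (T.be s ⊔ T.q) := by
    unfold R
    apply le_antisymm
    · refine sup_le (le_sup_left.trans le_sup_right) (sup_le (sup_le ?_ le_sup_left) (le_sup_right.trans le_sup_right))
      refine (T.zk hs hs').trans (sup_le (le_sup_left.trans le_sup_right) (sup_le le_sup_left ?_))
      exact le_sup_right.trans le_sup_right
    · refine sup_le ?_ (sup_le le_sup_left (le_sup_right.trans le_sup_right))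
      exact (le_sup_right.trans le_sup_left).trans le_sup_right
  have h7 : h (T.M T.B) (T.be s ⊔ T.q) = h (T.M k) (T.be s ⊔ T.q) + h (T.M T.B) (T.M k ⊔ (T.be s ⊔ T.q)) :=
    h_split (hMk.trans le_sup_left)
  have h8 := T.pr2 hs hs' le_rfl
  have h9 := T.pr2 hs (le_refl (T.w * s)) hs'
  rw [e2] at h2
  rw [← hkd] at h9
  linarith

/-- (0.1) -/
theorem Vis.be_le_R (hv : T.Vis) {s k : ℝ} (hs : 0 ≤ s) (hsk : T.w * s ≤ k) (hk : k ≤ T.B) :
    T.be s ≤ T.R k ⊔ T.q := by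
  have h0 : 0 ≤ T.w * s := mul_nonneg T.hw.le hs
  refine (hv.be_le_R0 hs (hsk.trans hk)).trans (sup_le_sup_right ?_ _)
  exact sup_le_sup (T.monoz h0 hsk hk) (T.monoM h0 hsk hk)

/-- `h(R_k | q) = (N + 1 - ρ) k` -/
theorem Vis.h_R (hv : T.Vis) {k : ℝ} (hk : 0 ≤ k) (hk' : k ≤ T.B) : h (T.R k) T.q = (T.N + T.κ) * k := by
  have hw := T.hw
  obtain ⟨s, hs, e⟩ : ∃ s : ℝ, 0 ≤ s ∧ T.w * s = k := ⟨k / T.w, by positivity, by field_simp⟩
  have hs' : T.w * s ≤ T.B := by rw [e]; exact hk'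
  have h1 : h (T.R k) T.q = h (T.be s ⊔ T.M k) T.q := by
    apply h_congr_left
    · unfold R
      have := T.zk hs hs'
      rw [e] at this
      refine sup_le (this.trans ?_) (le_sup_right.trans le_sup_left)
      exact sup_le (le_sup_left.trans le_sup_left) (sup_le_sup_right le_sup_right _)
    · refine sup_le (hv.be_le_R hs e.le hk') ?_
      exact le_sup_right.trans le_sup_left
  have h2 : h (T.be s ⊔ T.M k) T.q = h (T.be s) T.q + h (T.M k) (T.be s ⊔ T.q) := h_chain _ _ _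
  have h3 := T.h_be_q hs hs'
  have h4 := T.pr2 hs e.le hk'
  have h5 := T.κ_mul
  have h6 : T.κ * k = (T.A₀ - T.d - T.W) * s := by rw [← e, ← mul_assoc, h5]
  rw [h1, h2, h3, h4, add_mul, h6]; ring

/-- `h(R_k | be s, q)`, `k ≥ w s` -/
theorem Vis.h_R_be (hv : T.Vis) {s k : ℝ} (hs : 0 ≤ s) (hsk : T.w * s ≤ k) (hk : k ≤ T.B) :
    h (T.R k) (T.be s ⊔ T.q) = (T.N + 1) * k - (T.W + T.w) * s - (1 - T.κ) * (k - T.w * s) := by
  have h0 : 0 ≤ T.w * s := mul_nonneg T.hw.le hs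
  have h1 := h_split (hv.be_le_R hs hsk hk)
  have h2 := hv.h_R (h0.trans hsk) hk
  have h3 := T.h_be_q hs (hsk.trans hk)
  have h4 : h (T.R k) (T.be s ⊔ T.q) = (T.N + T.κ) * k - (T.A₀ - T.d) * s := by linarith
  have h5 := T.κ_mul
  have h6 : T.A₀ - T.d = T.κ * T.w + T.W := by linarith
  rw [h4, h6]; ring

/-- the point to level `w s` is full in the box -/
theorem Vis.full (hv : T.Vis) {s : ℝ} (hs : 0 ≤ s) (hs' : T.w * s ≤ T.B) :
    h (T.R (T.w * s)) (T.be s ⊔ T.q) = (T.N + 1) * (T.w * s) - (T.W + T.w) * s := by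
  rw [hv.h_R_be hs le_rfl hs']; ring

/-- `h(z_k | q, M_k) = (1 - ρ) k` (helper95's (a7), second half) -/
theorem Vis.h_z_M (hv : T.Vis) {k : ℝ} (hk : 0 ≤ k) (hk' : k ≤ T.B) : h (T.z k) (T.M k ⊔ T.q) = T.κ * k := by
  have h1 := hv.h_R hk hk'
  have h2 : h (T.R k) T.q = h (T.M k) T.q + h (T.z k) (T.M k ⊔ T.q) := by
    unfold R
    rw [sup_comm (T.z k)]
    exact h_chain _ _ _
  have h3 := T.pr1 hk hk'
  linarith

/-- all intermediate conditions: `h(z_k | q, Y) = (1 - ρ) k` for `M_k ≤ Y ≤ M_B` -/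
theorem Vis.h_z_mid (hv : T.Vis) {k : ℝ} (hk : 0 ≤ k) (hk' : k ≤ T.B) {Y : L} (h1 : T.M k ≤ Y ⊔ T.q)
    (h2 : Y ≤ T.O) : h (T.z k) (Y ⊔ T.q) = T.κ * k := by
  apply le_antisymm
  · rw [← hv.h_z_M hk hk']
    exact h_anti (sup_le h1 le_sup_right)
  · rw [← hv.h_z_O hk hk']
    exact h_anti (sup_le h2 T.q_le_O)

/-- growth of the boxes over the base point -/
theorem h_be_be {s s' : ℝ} (hs : 0 ≤ s) (hss : s ≤ s') (hs' : T.w * s' ≤ T.B)
    (mono : T.be s ≤ T.be s') : h (T.be s') (T.be s ⊔ T.q) = (T.A₀ - T.d) * (s' - s) := by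
  have hw := T.hw
  have h1 := T.h_be_q hs ((mul_le_mul_of_nonneg_left hss hw.le).trans hs')
  have h2 := T.h_be_q (hs.trans hss) hs'
  have h3 : h (T.be s') T.q = h (T.be s) T.q + h (T.be s') (T.be s ⊔ T.q) := h_split (mono.trans le_sup_left)
  linarith [mul_sub (T.A₀ - T.d) s' s]

/-- the point is free beyond the box: `h(R_k' | R_k, q)` -/
theorem Vis.h_R_R (hv : T.Vis) {k k' : ℝ} (hk : 0 ≤ k) (hkk : k ≤ k') (hk' : k' ≤ T.B) :
    h (T.R k') (T.R k ⊔ T.q) = (T.N + T.κ) * (k' - k) := by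
  have h1 := hv.h_R hk (hkk.trans hk')
  have h2 := hv.h_R (hk.trans hkk) hk'
  have h3 : h (T.R k') T.q = h (T.R k) T.q + h (T.R k') (T.R k ⊔ T.q) :=
    h_split ((sup_le_sup (T.monoz hk hkk hk') (T.monoM hk hkk hk')).trans le_sup_left)
  linarith [mul_sub (T.N + T.κ) k' k]

/-! ### (I3): `δ = 0` from homogeneity -/

/-- if the defect is the same in all `T | be s` and linear, and one box is a function of the point, it vanishes -/
theorem vis_of_hom (c : ℝ) (hlin : ∀ ⦃s : ℝ⦄, 0 ≤ s → T.w * s ≤ T.B → T.del s = c * s)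
    (mono : ∀ ⦃s s' : ℝ⦄, 0 ≤ s → s ≤ s' → T.w * s' ≤ T.B → T.be s ≤ T.be s')
    (hhom : ∀ ⦃s s' : ℝ⦄, 0 ≤ s → 0 ≤ s' → T.w * (s + s') ≤ T.B →
      h (T.be (s + s')) (T.be s ⊔ (T.z (T.w * (s + s')) ⊔ T.O)) = T.del s')
    {s₀ : ℝ} (h0 : 0 < s₀) (h0' : T.w * s₀ ≤ T.B) (hk : T.be s₀ ≤ T.z T.B ⊔ T.O) : T.Vis := by
  have hw := T.hw
  have hc : c = 0 := by
    obtain ⟨s', hs', e⟩ : ∃ s' : ℝ, 0 ≤ s' ∧ T.w * (s₀ + s') = T.B := by
      refine ⟨T.B / T.w - s₀, ?_, ?_⟩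
      · rw [sub_nonneg, le_div_iff₀ hw]; linarith
      · field_simp; ring
    have h1 := hhom h0.le hs' e.le
    have h2 : h (T.be (s₀ + s')) (T.z (T.w * (s₀ + s')) ⊔ T.O) =
        h (T.be s₀) (T.z (T.w * (s₀ + s')) ⊔ T.O) +
          h (T.be (s₀ + s')) (T.be s₀ ⊔ (T.z (T.w * (s₀ + s')) ⊔ T.O)) :=
      h_split ((mono h0.le (by linarith) e.le).trans le_sup_left)
    have h3 : h (T.be s₀) (T.z (T.w * (s₀ + s')) ⊔ T.O) = 0 := by rw [e]; exact h_zero hk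
    have h4 : T.del (s₀ + s') = T.del s' := by
      unfold del at *
      rw [h2, h3, h1]; ring
    have hs'' : T.w * s' ≤ T.B := by nlinarith
    rw [hlin (by linarith) e.le, hlin hs' hs''] at h4
    have : c * s₀ = 0 := by linarith
    exact (mul_eq_zero.mp this).resolve_right h0.ne'
  intro s hs hs'
  have := hlin hs hs'
  rw [hc, zero_mul] at this
  exact h_eq_zero_iff.mp this

end HCor

end Pool.Agent.Helper33.CM
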