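import Pool.Agent.Helper79.HLD.Zm
import Pool.Agent.Helper10.BLD.St

/-! [TN]: the numbers of a corner from the totals `h(q_a, M_a, z_b | K_s)`: every coordinate except `z` has its upper bound
from the frame and the total without `z` is the sum of the upper bounds. -/

set_option autoImplicit false

namespace Pool.Agent.Helper33.CM

open Finset Filter Topology Pool.Agent.Helper69.RK Pool.Agent.Helper31.EC Pool.Agent.Helper31.EC.Sp
open Pool.Agent.Helper31.EC.QS Pool.Agent.Helper13.AM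
open Pool.Agent.Helper79.HLD (ga_le' R_le M_le q0_le lower_ne sum_sub card_sub)

noncomputable section

variable {S : Sp} {d N r : ℕ} {c : CD S d N r} {w : Fin N → ℝ} {z : Fin N}

/-- digits of a small function -/
theorem H_dg_Id {f : QS S} {a k : ℝ} (hf : f ∈ Id S a) (ha : a ≤ k) (h1 : k ≤ 1) : H (dg f k) ≤ k - a := by
  have e : dg f a = ⊥ := dg_of_mem_Id hf le_rfl (ha.trans h1)
  have h2 := h_dg_dg f ha
  rwa [e, h_bot] at h2

theorem h_dg_Id {f : QS S} {a k : ℝ} (hf : f ∈ Id S a) (ha : a ≤ k) (h1 : k ≤ 1) (A : S.L) :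
    h (dg f k) A ≤ k - a := (h_le_H _ _).trans (H_dg_Id hf ha h1)

theorem le_wz (w1 : ∀ j, 1 < w j) {s k : ℝ} (hs : 0 ≤ s) (h1 : w z * s ≤ k) : s ≤ k := by
  have := w1 z
  nlinarith

/-- upper bound for the lower coordinates from the frame -/
theorem h_M_le (hb : c.Bx w z) (w1 : ∀ j, 1 < w j) (wz : ∀ j, w j ≤ w z) {s k : ℝ} (hs : 0 ≤ s) (h1 : w z * s ≤ k)
    (h2 : k ≤ 1) : h (vd (c.M z) k) (c.K s ⊔ c.P) ≤ ((N : ℝ) - 1) * k - (∑ j ∈ univ.erase z, w j) * s := by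
  have hs1 : w z * s ≤ 1 := h1.trans h2
  obtain ⟨g, hg⟩ : ∃ g : {j : Fin N // j ≠ z} → S.L, ∀ j, g j = dg (c.γ s j.1) k :=
    ⟨fun j => dg (c.γ s j.1) k, fun _ => rfl⟩
  have h3 : vd (c.M z) k ≤ univ.sup g ⊔ (c.K s ⊔ c.P) := by
    rw [vd_le]
    rintro ⟨j, hj⟩
    show dg (c.R j) k ≤ _
    apply R_le hb w1 hs hs1 (le_sup_left.trans le_sup_right) (le_sup_right.trans le_sup_right) h2
    intro l hl
    have hlz : l ≠ z := by
      rintro rfl
      rcases hl with h | h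
      · exact hj h.symm
      · exact absurd (h.trans_le (wz j)) (lt_irrefl _)
    have h4 := Finset.le_sup (f := g) (Finset.mem_univ (⟨l, hlz⟩ : {j : Fin N // j ≠ z}))
    rw [hg] at h4
    exact h4.trans le_sup_left
  have h4 : h (vd (c.M z) k) (c.K s ⊔ c.P) ≤ h (univ.sup g) (c.K s ⊔ c.P) := by
    refine (h_mono h3).trans ?_
    rw [h_sup_right_of_le le_rfl]
  have h5 : h (univ.sup g) (c.K s ⊔ c.P) ≤ ∑ j : {j : Fin N // j ≠ z}, (k - w j.1 * s) := by
    refine (h_finsup_le Finset.univ _ _).trans (Finset.sum_le_sum fun j _ => ?_)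
    rw [hg]
    refine h_dg_Id (hb.fγ s hs hs1 j.1) ?_ h2 _
    exact (mul_le_mul_of_nonneg_right (wz j.1) hs).trans h1
  have h6 : ∑ j : {j : Fin N // j ≠ z}, (k - w j.1 * s) = ((N : ℝ) - 1) * k - (∑ j ∈ univ.erase z, w j) * s := by
    rw [Finset.sum_sub_distrib, sum_sub z (fun j => w j * s), Finset.sum_const, nsmul_eq_mul, Finset.sum_mul]
    congr 2
    exact card_sub z
  linarith

/-- the base point over the box -/
theorem h_q_le (hb : c.Bx w z) {s k : ℝ} (hs : 0 ≤ s) (h0 : w z * s ≤ 1) (h1 : s ≤ k)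
    (h2 : k ≤ 1) : h (vd c.q k) (c.K s) ≤ ((d : ℝ) + 1) * (k - s) := by
  obtain ⟨g, hg⟩ : ∃ g : Fin (d + 1) → S.L, ∀ j, g j = dg (c.q j - c.q0 s j) k :=
    ⟨fun j => dg (c.q j - c.q0 s j) k, fun _ => rfl⟩
  have h3 : vd c.q k ≤ univ.sup g ⊔ c.K s := by
    rw [vd_le]
    intro j
    have e : c.q j = (c.q j - c.q0 s j) + c.q0 s j := by ring
    rw [e]
    refine (dg_add_le _ _ h2).trans (sup_le ?_ ?_)
    · have h4 := Finset.le_sup (f := g) (Finset.mem_univ j)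
      rw [hg] at h4
      exact h4.trans le_sup_left
    · exact ((dg_mono _ h2).trans (q0_le hb s j)).trans le_sup_right
  have h4 : h (vd c.q k) (c.K s) ≤ h (univ.sup g) (c.K s) := by
    refine (h_mono h3).trans ?_
    rw [h_sup_right_of_le le_rfl]
  have h5 : h (univ.sup g) (c.K s) ≤ ∑ _j : Fin (d + 1), (k - s) := by
    refine (h_finsup_le Finset.univ _ _).trans (Finset.sum_le_sum fun j _ => ?_)
    rw [hg]
    exact h_dg_Id (hb.fq s hs h0 j) h1 h2 _
  have h6 : ∑ _j : Fin (d + 1), (k - s) = ((d : ℝ) + 1) * (k - s) := by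
    rw [Finset.sum_const, nsmul_eq_mul, Finset.card_univ, Fintype.card_fin]
    push_cast
    ring
  linarith

/-- thickness -/
theorem z_thin (hb : c.Bx w z) (w1 : ∀ j, 1 < w j) (wz : ∀ j, w j ≤ w z) {s : ℝ} (hs : 0 ≤ s) (hs1 : w z * s ≤ 1) :
    dg (c.R z) (w z * s) ≤ c.K s ⊔ (vd (c.M z) (w z * s) ⊔ c.P) := by
  apply R_le hb w1 hs hs1 le_sup_left (le_sup_right.trans le_sup_right) hs1
  intro l hl
  by_cases hlz : l = z
  · subst hlz
    have h1 := dg_of_mem_Id (hb.fγ s hs hs1 l) le_rfl hs1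
    rw [h1]
    exact bot_le
  · apply ga_le' hb w1 hs hs1 le_sup_left (le_sup_right.trans le_sup_right) hs1
    intro l' hl'
    have hl'z : l' ≠ z := by
      rintro rfl
      rcases hl' with h | h
      · exact hlz h.symm
      · exact absurd (h.trans_le (wz l)) (lt_irrefl _)
    exact (M_le z hl'z _).trans (le_sup_left.trans le_sup_right)

theorem sum_sub' (a s : ℝ) : ∑ j ∈ univ.erase z, (a - w j * s) = ((N : ℝ) - 1) * a - (∑ j ∈ univ.erase z, w j) * s := by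
  rw [← sum_sub z (fun j => a - w j * s), Finset.sum_sub_distrib, sum_sub z (fun j => w j * s), Finset.sum_const,
    nsmul_eq_mul, Finset.sum_mul]
  congr 2
  exact card_sub z

/-- the base point and all lower coordinates over the box: all upper bounds are attained -/
theorem num_all {ρ : ℝ} (hb : c.Bx w z) (w1 : ∀ j, 1 < w j) (wz : ∀ j, w j ≤ w z)
    (hT : Helper10.BLD.Tot c w z ρ) {s k : ℝ} (hs : 0 ≤ s) (h1 : w z * s ≤ k) (h2 : k ≤ 1) :
    h c.P (c.K s) = ((d : ℝ) + 1) * (1 - s) ∧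
      h (vd (c.M z) k) (c.K s ⊔ c.P) = ((N : ℝ) - 1) * k - (∑ j ∈ univ.erase z, w j) * s := by
  have hs1 : w z * s ≤ 1 := h1.trans h2
  have hsl : s ≤ 1 := le_wz w1 hs hs1
  have a1 := h_q_le hb hs hs1 hsl le_rfl
  have a2 := h_M_le hb w1 wz hs h1 h2
  -- the total
  have a3 := hT s (w z * s) 1 hs le_rfl hs1 le_rfl
  rw [sub_self, mul_zero, add_zero, sum_sub', mul_one] at a3
  have a4 : h (vd c.q 1 ⊔ vd (c.M z) 1 ⊔ dg (c.R z) (w z * s)) (c.K s) = h (vd c.q 1 ⊔ vd (c.M z) 1) (c.K s) := by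
    rw [h_chain]
    have b1 : h (dg (c.R z) (w z * s)) (vd c.q 1 ⊔ vd (c.M z) 1 ⊔ c.K s) = 0 := by
      apply h_zero
      refine (z_thin hb w1 wz hs hs1).trans ?_
      refine sup_le le_sup_right (sup_le ?_ ?_)
      · exact ((vd_mono _ hs1).trans le_sup_right).trans le_sup_left
      · exact le_sup_left.trans le_sup_left
    rw [b1, add_zero]
  have a5 : h (vd c.q 1 ⊔ vd (c.M z) 1) (c.K s) = h c.P (c.K s) + h (vd (c.M z) 1) (c.K s ⊔ c.P) := by
    have b1 := h_chain c.P (vd (c.M z) 1) (c.K s)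
    rw [sup_comm c.P (c.K s)] at b1
    exact b1
  -- all levels `k ≤ 1`
  have a6 : h (vd (c.M z) 1) (c.K s ⊔ c.P) ≤ h (vd (c.M z) k) (c.K s ⊔ c.P) + ((N : ℝ) - 1) * (1 - k) := by
    have b1 := h_triangle (vd (c.M z) 1) (vd (c.M z) k) (c.K s ⊔ c.P)
    have b2 : h (vd (c.M z) 1) (vd (c.M z) k ⊔ (c.K s ⊔ c.P)) ≤ ((N : ℝ) - 1) * (1 - k) := by
      have b3 : h (vd (c.M z) 1) (vd (c.M z) k ⊔ (c.K s ⊔ c.P)) ≤ ∑ _j : {j : Fin N // j ≠ z}, (1 - k) := by
        refine (h_finsup_le Finset.univ _ _).trans (Finset.sum_le_sum fun j _ => ?_)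
        refine (h_anti ?_).trans (h_dg_dg (c.M z j) h2)
        exact (dg_le_vd (c.M z) k j).trans le_sup_left
      rw [Finset.sum_const, nsmul_eq_mul, Finset.card_univ, card_sub z] at b3
      exact b3
    linarith
  have e0 : c.P = vd c.q 1 := rfl
  rw [← e0] at a1
  constructor
  · linarith
  · have b1 : ((N : ℝ) - 1) - (∑ j ∈ univ.erase z, w j) * s ≤ h (vd (c.M z) 1) (c.K s ⊔ c.P) := by linarith
    nlinarith

/-- **[TN]** -/
theorem num_of_tot {ρ : ℝ} (hb : c.Bx w z) (w1 : ∀ j, 1 < w j) (wz : ∀ j, w j ≤ w z)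
    (hT : Helper10.BLD.Tot c w z ρ) : c.Num w z ρ := by
  have hwz0 : 0 < w z := zero_lt_one.trans (w1 z)
  have hK0 : c.K 0 = ⊥ := hb.K_zero
  have e1 : vd c.q 1 ⊔ vd (c.M z) 1 ⊔ dg (c.R z) 1 = c.O := by
    unfold CD.O
    rw [CD.vdR_eq (c := c) (z := z) 1]
    apply le_antisymm
    · exact sup_le (sup_le le_sup_left (le_sup_right.trans le_sup_right)) (le_sup_left.trans le_sup_right)
    · exact sup_le (le_sup_left.trans le_sup_left) (sup_le le_sup_right (le_sup_right.trans le_sup_left))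
  have hO0 := hT 0 1 1 le_rfl (by rw [mul_zero]; exact zero_le_one) le_rfl le_rfl
  rw [e1, hK0, h_bot, sum_sub'] at hO0
  have hbe : ∀ s, 0 ≤ s → w z * s ≤ 1 →
      H (c.K s) = ((d : ℝ) + 1 + (∑ j ∈ univ.erase z, w j) + (1 - ρ) * w z) * s := by
    intro s hs h1
    have a1 := hT s 1 1 hs h1 le_rfl le_rfl
    rw [e1, sum_sub'] at a1
    have a2 := H_chain (c.K s) c.O
    rw [sup_eq_right.mpr (hb.K_le hs h1)] at a2
    nlinarith
  have hP0 : H c.P = (d : ℝ) + 1 := by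
    have a1 := (num_all (k := 0) hb w1 wz hT (le_refl (0 : ℝ)) (by rw [mul_zero]) zero_le_one).1
    rw [hK0, h_bot, sub_zero, mul_one] at a1
    exact a1
  refine ⟨hbe, ?_, ?_, ?_, ?_⟩
  · intro s hs h1
    have a1 := (num_all hb w1 wz hT hs h1 le_rfl).1
    rw [I_eq', h_bot, sup_bot_eq, a1, hP0]
    ring
  · intro k hk h1
    have a1 := (num_all hb w1 wz hT (le_refl (0 : ℝ)) (by rw [mul_zero]; exact hk) h1).2
    rw [hK0, bot_sup_eq, mul_zero, sub_zero] at a1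
    exact a1
  · intro s k hs h1 h2
    exact (num_all hb w1 wz hT hs h1 h2).2
  · intro s hs h1
    obtain ⟨Y, hY⟩ : ∃ Y, Y = vd c.q 1 ⊔ vd (c.M z) 1 ⊔ dg (c.R z) (w z * s) := ⟨_, rfl⟩
    have hs0 : 0 ≤ w z * s := mul_nonneg hwz0.le hs
    have a1 := hT s (w z * s) 1 hs le_rfl h1 le_rfl
    have a2 := hT 0 (w z * s) 1 le_rfl (by rw [mul_zero]; exact hs0) h1 le_rfl
    rw [← hY, sum_sub'] at a1 a2
    rw [hK0, h_bot] at a2
    have a3 := hbe s hs h1
    have a4 : h (c.K s) Y = 0 := by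
      have b1 := H_chain (c.K s) Y
      have b2 := H_chain Y (c.K s)
      rw [sup_comm] at b2
      nlinarith
    have a5 := h_eq_zero_iff.mp a4
    refine a5.trans ?_
    rw [hY]
    exact sup_le (sup_le (le_sup_right.trans le_sup_right) (le_sup_left.trans le_sup_right)) le_sup_left

theorem st_tn : Helper10.BLD.ST_TN := fun _ _ _ _ _ _ _ _ h hT => num_of_tot h.bx h.w1 h.wz hT

end

end Pool.Agent.Helper33.CM
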