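import Pool.Agent.Helper33.CM.Num

/-! The numbers of a ZOOMED corner, in an entropy lattice. The corner has boxes `K s`; the zoom at the scale `s₀` has depth
`e`; `q k` = base point to level `k`; `G k` = the lower frame coordinates of the box `K s₀` to the levels `w_j s₀ + k`;
`z k` = the top frame coordinate to level `w s₀ + k`; `O` = all digits of the lower coordinates and of the base point. -/

set_option autoImplicit false

namespace Pool.Agent.Helper33.CM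

open Pool.Agent.Helper31.EC

/-- data and inputs; `d` = number of base coordinates, `n` = number of lower coordinates, `W` = sum of their weights,
`w` = the highest weight -/
structure Zom (L : Type*) [PM L] where
  K : ℝ → L
  q : ℝ → L
  G : ℝ → L
  z : ℝ → L
  O : L
  s₀ : ℝ
  e : ℝ
  d : ℝ
  n : ℝ
  W : ℝ
  w : ℝ
  κ : ℝ
  he : 0 < e
  hw : 1 ≤ w
  /-- boxes -/
  mono : ∀ ⦃s : ℝ⦄, 0 ≤ s → w * s ≤ e → K s₀ ≤ K (s₀ + s)
  hK : ∀ ⦃s : ℝ⦄, 0 ≤ s → w * s ≤ e → h (K (s₀ + s)) (K s₀) = (d + W + κ * w) * s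
  /-- digits -/
  monoq : ∀ ⦃k k' : ℝ⦄, 0 ≤ k → k ≤ k' → k' ≤ e → q (s₀ + k) ≤ q (s₀ + k')
  monoG : ∀ ⦃k k' : ℝ⦄, 0 ≤ k → k ≤ k' → k' ≤ e → G k ≤ G k'
  qO : q (s₀ + e) ≤ O
  GO : G e ≤ K s₀ ⊔ O
  /-- the base point is full over the boxes -/
  hq : ∀ ⦃s : ℝ⦄, 0 ≤ s → w * s ≤ e → h (q (s₀ + e)) (K (s₀ + s)) = d * (e - s)
  /-- all digits of the lower coordinates over the boxes, given all digits `Q` of the base point -/
  Q : L
  qQ : q (s₀ + e) ≤ Q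
  QO : Q ≤ O
  full : ∀ ⦃s : ℝ⦄, 0 ≤ s → w * s ≤ e → h O (K (s₀ + s) ⊔ Q) = n - W * (s₀ + s)
  /-- the digits beyond `G k` -/
  rest : ∀ ⦃k : ℝ⦄, 0 ≤ k → k ≤ e → h O (K s₀ ⊔ Q ⊔ G k) ≤ n - W * s₀ - n * k
  /-- upper bounds from the frames of the deeper boxes -/
  cap : ∀ ⦃s k : ℝ⦄, 0 ≤ s → w * s ≤ k → k ≤ e → h (G k) (K (s₀ + s) ⊔ q (s₀ + e)) ≤ n * k - W * s
  /-- thickness in the top direction -/
  zk : ∀ ⦃s : ℝ⦄, 0 ≤ s → w * s ≤ e → z (w * s) ≤ K (s₀ + s) ⊔ (G e ⊔ q (s₀ + e))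
  /-- (D), given the box and all digits -/
  D : ∀ ⦃k : ℝ⦄, 0 ≤ k → k ≤ e → h (z k) (K s₀ ⊔ O) = κ * k

namespace Zom

variable {L : Type*} [PM L] (T : Zom L)

theorem s_le {s : ℝ} (hs : 0 ≤ s) (h1 : T.w * s ≤ T.e) : s ≤ T.e := by
  have := T.hw
  nlinarith

/-- (pr0) of the zoom -/
theorem pr0 {s : ℝ} (hs : 0 ≤ s) (h1 : T.w * s ≤ T.e) :
    I (T.K (T.s₀ + s)) (T.q (T.s₀ + T.e)) (T.K T.s₀) = T.d * s := by
  have a1 := T.hq hs h1
  have a2 := T.hq (s := 0) le_rfl (by rw [mul_zero]; exact T.he.le)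
  rw [add_zero] at a2
  rw [I_comm, I_eq, sup_eq_left.mpr (T.mono hs h1), a1, a2]
  ring

theorem hqK : h (T.q (T.s₀ + T.e)) (T.K T.s₀) = T.d * T.e := by
  have a2 := T.hq (s := 0) le_rfl (by rw [mul_zero]; exact T.he.le)
  rw [add_zero, sub_zero] at a2
  exact a2

/-- the lower frame coordinates over a box (pr1, pr2 of the zoom) -/
theorem hG {s k : ℝ} (hs : 0 ≤ s) (h1 : T.w * s ≤ k) (h2 : k ≤ T.e) :
    h (T.G k) (T.K (T.s₀ + s) ⊔ T.q (T.s₀ + T.e)) = T.n * k - T.W * s := by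
  have hw := T.hw
  have hk0 : 0 ≤ k := le_trans (by positivity) h1
  have hse : T.w * s ≤ T.e := h1.trans h2
  apply le_antisymm (T.cap hs h1 h2)
  have b1 := T.full hs hse
  have b2 := T.rest hk0 h2
  -- all digits: first `G k`, then the rest
  have b3 : h T.O (T.K (T.s₀ + s) ⊔ T.Q) ≤ h (T.G k) (T.K (T.s₀ + s) ⊔ T.Q) +
      h T.O (T.K T.s₀ ⊔ T.Q ⊔ T.G k) := by
    have c1 := h_triangle T.O (T.G k) (T.K (T.s₀ + s) ⊔ T.Q)
    have c2 : h T.O (T.G k ⊔ (T.K (T.s₀ + s) ⊔ T.Q)) ≤ h T.O (T.K T.s₀ ⊔ T.Q ⊔ T.G k) := by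
      apply h_anti
      exact sup_le (sup_le ((T.mono hs hse).trans (le_sup_left.trans le_sup_right))
        (le_sup_right.trans le_sup_right)) le_sup_left
    linarith
  have b4 : h (T.G k) (T.K (T.s₀ + s) ⊔ T.Q) ≤ h (T.G k) (T.K (T.s₀ + s) ⊔ T.q (T.s₀ + T.e)) :=
    h_anti (sup_le_sup_left T.qQ _)
  nlinarith

theorem pr1 {k : ℝ} (hk : 0 ≤ k) (h2 : k ≤ T.e) : h (T.G k) (T.K T.s₀ ⊔ T.q (T.s₀ + T.e)) = T.n * k := by
  have a := T.hG (s := 0) (k := k) le_rfl (by rw [mul_zero]; exact hk) h2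
  rw [add_zero, mul_zero, sub_zero] at a
  exact a

/-- the lower point of the zoom -/
def X : L := T.G T.e ⊔ T.q (T.s₀ + T.e)

theorem hX {s : ℝ} (hs : 0 ≤ s) (h1 : T.w * s ≤ T.e) :
    h T.X (T.K (T.s₀ + s)) = (T.n * T.e - T.W * s) + T.d * (T.e - s) := by
  have a1 := T.hG hs h1 le_rfl
  have a2 := T.hq hs h1
  have a3 := h_chain (T.q (T.s₀ + T.e)) (T.G T.e) (T.K (T.s₀ + s))
  unfold X
  rw [sup_comm (T.G T.e), a3, a2, sup_comm (T.q _) (T.K _), a1]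
  ring

theorem X_le : T.X ≤ T.K T.s₀ ⊔ T.O := sup_le T.GO (T.qO.trans le_sup_right)

/-- the top coordinate over the lower point of the zoom is deficient, and the box is visible -/
theorem zX_del {s : ℝ} (hs : 0 ≤ s) (h1 : T.w * s ≤ T.e) :
    h (T.z (T.w * s)) (T.K T.s₀ ⊔ T.X) = T.κ * (T.w * s) ∧
      h (T.K (T.s₀ + s)) (T.z (T.w * s) ⊔ (T.K T.s₀ ⊔ T.X)) = 0 := by
  have hw := T.hw
  have h0 : 0 ≤ T.w * s := by positivity
  -- information of the box given the lower point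
  have a1 : h (T.K (T.s₀ + s)) (T.K T.s₀ ⊔ T.X) = T.κ * (T.w * s) := by
    have b1 := h_chain T.X (T.K (T.s₀ + s)) (T.K T.s₀)
    have b2 := h_chain (T.K (T.s₀ + s)) T.X (T.K T.s₀)
    have b3 := T.hX hs h1
    have b4 := T.hX (s := 0) le_rfl (by rw [mul_zero]; exact T.he.le)
    rw [add_zero] at b4
    have b5 := T.hK hs h1
    rw [sup_comm (T.K (T.s₀ + s)) T.X] at b2
    rw [sup_eq_left.mpr (T.mono hs h1)] at b2
    rw [sup_comm T.X (T.K T.s₀)] at b1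
    nlinarith
  have a2 : T.z (T.w * s) ≤ T.K (T.s₀ + s) ⊔ (T.K T.s₀ ⊔ T.X) :=
    (T.zk hs h1).trans (sup_le_sup_left le_sup_right _)
  have a3 := h_split a2
  have a4 : T.κ * (T.w * s) ≤ h (T.z (T.w * s)) (T.K T.s₀ ⊔ T.X) := by
    rw [← T.D h0 h1]
    apply h_anti
    exact sup_le le_sup_left T.X_le
  have a5 := h_nonneg (T.K (T.s₀ + s)) (T.z (T.w * s) ⊔ (T.K T.s₀ ⊔ T.X))
  constructor
  · linarith
  · linarith

/-- (vis) of the zoom -/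
theorem vis {s : ℝ} (hs : 0 ≤ s) (h1 : T.w * s ≤ T.e) : T.K (T.s₀ + s) ≤ T.z (T.w * s) ⊔ (T.K T.s₀ ⊔ T.X) :=
  h_eq_zero_iff.mp (T.zX_del hs h1).2

/-- (D) of the zoom, levels `k ≤ e` -/
theorem zX {k : ℝ} (hk : 0 ≤ k) (h1 : k ≤ T.e) : h (T.z k) (T.K T.s₀ ⊔ T.X) = T.κ * k := by
  have hw := T.hw
  have hw0 : T.w ≠ 0 := by linarith
  have e1 : T.w * (k / T.w) = k := by field_simp
  have a := (T.zX_del (s := k / T.w) (div_nonneg hk (by linarith)) (by rw [e1]; exact h1)).1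
  rw [e1] at a
  exact a

end Zom

end Pool.Agent.Helper33.CM
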