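import Pool.Agent.Helper33.CM.Tn
import Pool.Agent.Helper33.CM.Zom
import Pool.Agent.Helper71.BLD.Cz

/-! THE NUMBERS OF A ZOOM (exact calculus): if `c'` is the zoom (`ZR`) of the corner `c` with `Bx`, `Num` and full base
point, then `c'.Num`. Input: the nested frames (`exists_tra` of helper71). -/

set_option autoImplicit false

namespace Pool.Agent.Helper33.CM

open Finset Filter Topology Pool.Agent.Helper69.RK Pool.Agent.Helper31.EC Pool.Agent.Helper31.EC.Sp
open Pool.Agent.Helper31.EC.QS Pool.Agent.Helper13.AM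
open Pool.Agent.Helper57.TA (sc wgt sc_add sc_mul_mem exists_div' sc_zero)
open Pool.Agent.Helper79.HLD (ga_le' R_le M_le q0_le lower_ne sum_sub card_sub dg_of_sc)
open Pool.Agent.Helper79.JET (dg_sc_mul)

noncomputable section

section graded

variable {S : Sp}

/-- `f` is a function of size `2 ^ (-u a n)` whose digits up to the level `u a + k` are known to `A` -/
def Gr (a k : ℝ) (A : S.L) (u : ℝ) (f : QS S) : Prop := ∃ g : QS S, f = sc S (u * a) * g ∧ dg g k ≤ A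

variable {a k : ℝ} {A : S.L}

theorem Gr.one (hk : k ≤ 1) : Gr a k A 0 (1 : QS S) := by
  refine ⟨1, ?_, (Kn S k hk A).one_mem⟩
  rw [zero_mul, sc_zero, one_mul]

theorem Gr.mul (ha : 0 ≤ a) (hk : k ≤ 1) {u v : ℝ} (hu : 0 ≤ u) (hv : 0 ≤ v) {f g : QS S} (hf : Gr a k A u f)
    (hg : Gr a k A v g) : Gr a k A (u + v) (f * g) := by
  obtain ⟨f', rfl, hf'⟩ := hf
  obtain ⟨g', rfl, hg'⟩ := hg
  refine ⟨f' * g', ?_, (Kn S k hk A).mul_mem hf' hg'⟩
  rw [add_mul, sc_add (mul_nonneg hu ha) (mul_nonneg hv ha)]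
  ring

theorem Gr.pow (ha : 0 ≤ a) (hk : k ≤ 1) {u : ℝ} (hu : 0 ≤ u) {f : QS S} (hf : Gr a k A u f) (n : ℕ) :
    Gr a k A (n * u) (f ^ n) := by
  induction n with
  | zero =>
    rw [Nat.cast_zero, zero_mul, pow_zero]
    exact Gr.one hk
  | succ n ih =>
    rw [pow_succ, Nat.cast_succ, add_mul, one_mul]
    exact Gr.mul ha hk (mul_nonneg (Nat.cast_nonneg _) hu) hu ih hf

theorem Gr.prod {ι : Type*} (ha : 0 ≤ a) (hk : k ≤ 1) (s : Finset ι) (u : ι → ℝ) (n : ι → ℕ) (f : ι → QS S)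
    (hu : ∀ i, 0 ≤ u i) (hf : ∀ i ∈ s, n i ≠ 0 → Gr a k A (u i) (f i)) :
    Gr a k A (∑ i ∈ s, (n i : ℝ) * u i) (∏ i ∈ s, f i ^ n i) := by
  classical
  induction s using Finset.induction_on with
  | empty =>
    rw [Finset.sum_empty, Finset.prod_empty]
    exact Gr.one hk
  | insert i s hi ih =>
    rw [Finset.sum_insert hi, Finset.prod_insert hi]
    have h2 := ih fun j hj => hf j (Finset.mem_insert_of_mem hj)
    apply Gr.mul ha hk (mul_nonneg (Nat.cast_nonneg _) (hu i))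
      (Finset.sum_nonneg fun j _ => mul_nonneg (Nat.cast_nonneg _) (hu j)) _ h2
    by_cases h0 : n i = 0
    · rw [h0, Nat.cast_zero, zero_mul, pow_zero]
      exact Gr.one hk
    · exact Gr.pow ha hk (hu i) (hf i (Finset.mem_insert_self i s) h0) (n i)

/-- small functions with known digits -/
theorem Gr.of_mem {u : ℝ} (h0 : 0 ≤ u * a) (hk0 : 0 ≤ k) (h1 : u * a + k ≤ 1) {f : QS S}
    (hf : f ∈ Id S (u * a)) (hA : dg f (u * a + k) ≤ A) : Gr a k A u f := by
  obtain ⟨g, rfl, -⟩ := exists_div' h0 (by linarith) hf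
  refine ⟨g, rfl, ?_⟩
  have h2 := dg_of_sc h0 (by linarith : u * a ≤ u * a + k) h1 g
  rw [add_sub_cancel_left] at h2
  exact h2.trans hA

theorem Gr.dg_le {u : ℝ} (h0 : 0 ≤ u * a) (hk0 : 0 ≤ k) (h1 : u * a + k ≤ 1) {f : QS S} (hf : Gr a k A u f) :
    dg f (u * a + k) ≤ A := by
  obtain ⟨g, rfl, hg⟩ := hf
  have h2 := dg_sc_mul h0 (by linarith : u * a ≤ u * a + k) h1 g
  rw [add_sub_cancel_left] at h2
  exact h2.trans hg

/-- values of polynomials with graded coefficients -/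
theorem tri_le {d N : ℕ} {w : Fin N → ℝ} (w1 : ∀ j, 1 < w j) (ha : 0 ≤ a) (hk0 : 0 ≤ k) {j : Fin N}
    (hj : w j * a + k ≤ 1) (T : MvPolynomial (Fin (d + 1) ⊕ Fin N) (QS S))
    (hdeg : ∀ n, T.coeff n ≠ 0 → wgt (Sum.elim (fun _ => 1) w) n < w j) (hc : ∀ n, dg (T.coeff n) 1 ≤ A)
    (hI : ∀ n, T.coeff n ∈ Id S ((w j - wgt (Sum.elim (fun _ => 1) w) n) * a)) (x : Fin (d + 1) → QS S)
    (y : Fin N → QS S) (hx : ∀ i, Gr a k A 1 (x i)) (hy : ∀ l, w l < w j → Gr a k A (w l) (y l)) :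
    dg (MvPolynomial.eval (Sum.elim x y) T) (w j * a + k) ≤ A := by
  have hw0 : 0 ≤ w j * a := mul_nonneg (zero_le_one.trans (w1 j).le) ha
  have hk : k ≤ 1 := by linarith
  rw [MvPolynomial.eval_eq']
  apply (Kn S (w j * a + k) hj A).sum_mem
  intro n hn
  have hn0 := hdeg n (MvPolynomial.mem_support_iff.mp hn)
  have hwg0 : 0 ≤ wgt (Sum.elim (fun _ : Fin (d + 1) => (1 : ℝ)) w) n := by
    unfold wgt
    refine Finset.sum_nonneg fun b _ => mul_nonneg (Nat.cast_nonneg _) ?_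
    rcases b with b | b
    · exact zero_le_one
    · exact zero_le_one.trans (w1 b).le
  have hu0 : 0 ≤ w j - wgt (Sum.elim (fun _ : Fin (d + 1) => (1 : ℝ)) w) n := by linarith
  have h1 : Gr a k A (w j - wgt (Sum.elim (fun _ : Fin (d + 1) => (1 : ℝ)) w) n) (T.coeff n) := by
    have h2 : (w j - wgt (Sum.elim (fun _ : Fin (d + 1) => (1 : ℝ)) w) n) * a ≤ w j * a :=
      mul_le_mul_of_nonneg_right (by linarith) ha
    refine Gr.of_mem (mul_nonneg hu0 ha) hk0 (by linarith) (hI n) ?_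
    exact (dg_mono _ (by linarith)).trans (hc n)
  have h2 : Gr a k A (wgt (Sum.elim (fun _ : Fin (d + 1) => (1 : ℝ)) w) n) (∏ i, Sum.elim x y i ^ n i) := by
    unfold wgt
    refine Gr.prod ha hk univ (Sum.elim (fun _ : Fin (d + 1) => (1 : ℝ)) w) (fun i => n i) (Sum.elim x y) ?_ ?_
    · rintro (b | b)
      · exact zero_le_one
      · exact zero_le_one.trans (w1 b).le
    · rintro (b | b) _ hb
      · exact hx b
      · refine hy b ?_
        refine lt_of_le_of_lt ?_ hn0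
        unfold wgt
        have h3 := Finset.single_le_sum (f := fun i => (n i : ℝ) * Sum.elim (fun _ : Fin (d + 1) => (1 : ℝ)) w i)
          (s := univ) (fun i _ => by
            refine mul_nonneg (Nat.cast_nonneg _) ?_
            rcases i with i | i
            · exact zero_le_one
            · exact zero_le_one.trans (w1 i).le) (mem_univ (Sum.inr b))
        have h4 : (1 : ℝ) ≤ (n (Sum.inr b) : ℝ) := Nat.one_le_cast.mpr (Nat.one_le_iff_ne_zero.mpr hb)
        have h5 : w b ≤ (n (Sum.inr b) : ℝ) * w b := by nlinarith [w1 b]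
        exact h5.trans h3
  have h3 := Gr.mul ha hk hu0 hwg0 h1 h2
  rw [sub_add_cancel] at h3
  exact Gr.dg_le hw0 hk0 hj h3

end graded

section tra

variable {S : Sp} {d N r : ℕ} {c : CD S d N r} {w : Fin N → ℝ} {z : Fin N}

/-- the transition between the boxes of the scales `s`, `s'` (helper71's `exists_tra`) -/
def Tra (c : CD S d N r) (w : Fin N → ℝ) (s s' : ℝ) (T : Fin N → MvPolynomial (Fin (d + 1) ⊕ Fin N) (QS S)) : Prop :=
  (∀ j, c.γ s j = MvPolynomial.eval (Sum.elim (fun i => c.q i - c.q0 s' i) (c.γ s')) (T j) + c.γ s' j) ∧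
    (∀ j n, (T j).coeff n ≠ 0 → wgt (Sum.elim (fun _ => 1) w) n < w j) ∧ (∀ j n, dg ((T j).coeff n) 1 ≤ c.K s') ∧
    ∀ j n, (T j).coeff n ∈ QS.Id S ((w j - wgt (Sum.elim (fun _ => 1) w) n) * s)

variable {s s' k : ℝ} {T : Fin N → MvPolynomial (Fin (d + 1) ⊕ Fin N) (QS S)} {A : S.L}

theorem gr_q (hb : c.Bx w z) (hs : 0 ≤ s) (hss : s ≤ s') (h1 : w z * s' ≤ 1) (hk0 : 0 ≤ k) (hk : s + k ≤ 1)
    (hK : c.K s' ≤ A) (hq : vd c.q (s + k) ≤ A) (i : Fin (d + 1)) : Gr s k A 1 (c.q i - c.q0 s' i) := by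
  apply Gr.of_mem (by rw [one_mul]; exact hs) hk0 (by rw [one_mul]; exact hk)
  · rw [one_mul]
    exact Id_anti hss (hb.fq s' (hs.trans hss) h1 i)
  · rw [one_mul]
    refine (dg_sub_le _ _ hk).trans (sup_le ((dg_le_vd c.q _ i).trans hq) ?_)
    exact ((dg_mono _ hk).trans (q0_le hb s' i)).trans hK

theorem gr_γ (hb : c.Bx w z) (w1 : ∀ j, 1 < w j) (hs : 0 ≤ s) (hss : s ≤ s') (h1 : w z * s' ≤ 1) (hk0 : 0 ≤ k)
    {l : Fin N} (hl : w l * s + k ≤ 1) (hA : dg (c.γ s' l) (w l * s + k) ≤ A) : Gr s k A (w l) (c.γ s' l) := by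
  apply Gr.of_mem (mul_nonneg (zero_le_one.trans (w1 l).le) hs) hk0 hl _ hA
  exact Id_anti (mul_le_mul_of_nonneg_left hss (zero_le_one.trans (w1 l).le)) (hb.fγ s' (hs.trans hss) h1 l)

/-- the value of the transition polynomial -/
theorem Tra.ev (hT : Tra c w s s' T) (hb : c.Bx w z) (w1 : ∀ j, 1 < w j) (hs : 0 ≤ s) (hss : s ≤ s')
    (h1 : w z * s' ≤ 1) (hk0 : 0 ≤ k) (hK : c.K s' ≤ A) (hq : vd c.q (s + k) ≤ A) {j : Fin N}
    (hj : w j * s + k ≤ 1) (hγ : ∀ l, w l < w j → dg (c.γ s' l) (w l * s + k) ≤ A) :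
    dg (MvPolynomial.eval (Sum.elim (fun i => c.q i - c.q0 s' i) (c.γ s')) (T j)) (w j * s + k) ≤ A := by
  have hsk : s + k ≤ 1 := by nlinarith [w1 j]
  refine tri_le w1 hs hk0 hj (T j) (hT.2.1 j) (fun n => (hT.2.2.1 j n).trans hK) (hT.2.2.2 j) _ _
    (gr_q hb hs hss h1 hk0 hsk hK hq) fun l hl => ?_
  have h2 : w l * s ≤ w j * s := mul_le_mul_of_nonneg_right hl.le hs
  exact gr_γ hb w1 hs hss h1 hk0 (by linarith) (hγ l hl)

/-- from the coordinates of the smaller box to those of the larger one -/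
theorem Tra.up (hT : Tra c w s s' T) (hb : c.Bx w z) (w1 : ∀ j, 1 < w j) (hs : 0 ≤ s) (hss : s ≤ s')
    (h1 : w z * s' ≤ 1) (hk0 : 0 ≤ k) (hK : c.K s' ≤ A) (hq : vd c.q (s + k) ≤ A) {j : Fin N}
    (hj : w j * s + k ≤ 1) (hγ : ∀ l, (l = j ∨ w l < w j) → dg (c.γ s' l) (w l * s + k) ≤ A) :
    dg (c.γ s j) (w j * s + k) ≤ A := by
  rw [hT.1 j]
  exact (dg_add_le _ _ hj).trans (sup_le (hT.ev hb w1 hs hss h1 hk0 hK hq hj fun l hl => hγ l (Or.inr hl))
    (hγ j (Or.inl rfl)))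

/-- from the coordinates of the larger box to those of the smaller one -/
theorem Tra.down (hT : Tra c w s s' T) (hb : c.Bx w z) (w1 : ∀ j, 1 < w j) (hs : 0 ≤ s) (hss : s ≤ s')
    (h1 : w z * s' ≤ 1) (hk0 : 0 ≤ k) (hK : c.K s' ≤ A) (hq : vd c.q (s + k) ≤ A) : ∀ (n : ℕ) (j : Fin N),
    (univ.filter fun l => w l < w j).card ≤ n → w j * s + k ≤ 1 →
      (∀ l, (l = j ∨ w l < w j) → dg (c.γ s l) (w l * s + k) ≤ A) → dg (c.γ s' j) (w j * s + k) ≤ A := by
  classical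
  intro n
  induction n with
  | zero =>
    intro j hn hj hγ
    have e : c.γ s' j = c.γ s j -
        MvPolynomial.eval (Sum.elim (fun i => c.q i - c.q0 s' i) (c.γ s')) (T j) := by
      rw [hT.1 j]
      ring
    rw [e]
    refine (dg_sub_le _ _ hj).trans (sup_le (hγ j (Or.inl rfl)) (hT.ev hb w1 hs hss h1 hk0 hK hq hj fun l hl => ?_))
    have h2 : l ∈ univ.filter fun l => w l < w j := Finset.mem_filter.mpr ⟨Finset.mem_univ l, hl⟩
    rw [Finset.card_eq_zero.mp (Nat.le_zero.mp hn)] at h2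
    exact absurd h2 (Finset.notMem_empty l)
  | succ n ih =>
    intro j hn hj hγ
    have e : c.γ s' j = c.γ s j -
        MvPolynomial.eval (Sum.elim (fun i => c.q i - c.q0 s' i) (c.γ s')) (T j) := by
      rw [hT.1 j]
      ring
    rw [e]
    refine (dg_sub_le _ _ hj).trans (sup_le (hγ j (Or.inl rfl)) (hT.ev hb w1 hs hss h1 hk0 hK hq hj fun l hl => ?_))
    have h5 : w l * s ≤ w j * s := mul_le_mul_of_nonneg_right hl.le hs
    apply ih l _ (by linarith)
    · rintro l' (rfl | hl')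
      · exact hγ _ (Or.inr hl)
      · exact hγ _ (Or.inr (hl'.trans hl))
    · have h2 : (univ.filter fun l' => w l' < w l) ⊂ univ.filter fun l' => w l' < w j := by
        rw [Finset.ssubset_iff_of_subset]
        · exact ⟨l, Finset.mem_filter.mpr ⟨Finset.mem_univ l, hl⟩, fun h => lt_irrefl _ (Finset.mem_filter.mp h).2⟩
        · intro x hx
          exact Finset.mem_filter.mpr ⟨Finset.mem_univ x, (Finset.mem_filter.mp hx).2.trans hl⟩
      have h3 := Finset.card_lt_card h2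
      omega

end tra

section corner

variable {S : Sp} {d N r : ℕ} {c : CD S d N r} {w : Fin N → ℝ} {z : Fin N} {ρ : ℝ}

/-- the homogeneous corner, from `Bx` and `Num` -/
def hcB (hb : c.Bx w z) (hn : c.Num w z ρ) (w1 : ∀ j, 1 < w j) (wz : ∀ j, w j ≤ w z) : HCor S.L where
  F := ⊥
  q := c.P
  M := fun k => vd (c.M z) k
  z := fun k => dg (c.R z) k
  be := c.K
  B := 1
  N := (N : ℝ) - 1
  W := ∑ j ∈ univ.erase z, w j
  d := (d : ℝ) + 1
  w := w z
  A₀ := (d : ℝ) + 1 + (∑ j ∈ univ.erase z, w j) + (1 - ρ) * w z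
  hB := zero_le_one
  hw := zero_lt_one.trans (w1 z)
  Fq := bot_le
  monoM := fun _ _ _ h _ => vd_mono _ h
  monoz := fun _ _ _ h _ => dg_mono _ h
  hbe := fun s h0 h1 => (h_bot _).trans (hn.hbe s h0 h1)
  pr0 := fun s h0 h1 => hn.pr0 s h0 h1
  pr1 := fun k h0 h1 => hn.pr1 k h0 h1
  pr2 := fun s k h0 h1 h2 => hn.pr2 s k h0 h1 h2
  zk := fun _ h0 h1 => z_thin hb w1 wz h0 h1

theorem hcB_vis (hb : c.Bx w z) (hn : c.Num w z ρ) (w1 : ∀ j, 1 < w j) (wz : ∀ j, w j ≤ w z) :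
    (hcB hb hn w1 wz).Vis := fun s h0 h1 => hn.vis s h0 h1

theorem hcB_κ (hb : c.Bx w z) (hn : c.Num w z ρ) (w1 : ∀ j, 1 < w j) (wz : ∀ j, w j ≤ w z) :
    (hcB hb hn w1 wz).κ = 1 - ρ := by
  have h0 : 0 < w z := zero_lt_one.trans (w1 z)
  show ((d : ℝ) + 1 + (∑ j ∈ univ.erase z, w j) + (1 - ρ) * w z - ((d : ℝ) + 1) - ∑ j ∈ univ.erase z, w j) / w z = 1 - ρ
  rw [div_eq_iff h0.ne']
  ring

/-- (D) given the box -/
theorem h_z_KO (hb : c.Bx w z) (hn : c.Num w z ρ) (w1 : ∀ j, 1 < w j) (wz : ∀ j, w j ≤ w z) {s k : ℝ} (h0 : 0 ≤ s)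
    (h1 : w z * s ≤ k) (h2 : k ≤ 1) :
    h (dg (c.R z) k) (c.K s ⊔ (vd (c.M z) 1 ⊔ c.P)) = (1 - ρ) * (k - w z * s) := by
  have h3 := (hcB_vis hb hn w1 wz).h_z_be (s := s) (k := k) h0 h1 h2
  rw [hcB_κ] at h3
  exact h3

theorem HP (hq : Rl c.q ⊥) : H c.P = (d : ℝ) + 1 := by
  have h9 : h (vd c.q 1) ⊥ = (Fintype.card (Fin (d + 1)) : ℝ) := hq
  rw [h_bot, Fintype.card_fin] at h9
  push_cast at h9
  exact h9

/-- the base point over a box -/
theorem h_q_K (hb : c.Bx w z) (hn : c.Num w z ρ) (hq : Rl c.q ⊥) {s k : ℝ} (h0 : 0 ≤ s)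
    (h1 : w z * s ≤ 1) (hsk : s ≤ k) (hk : k ≤ 1) : h (vd c.q k) (c.K s) = ((d : ℝ) + 1) * (k - s) := by
  apply le_antisymm (h_q_le hb h0 h1 hsk hk)
  have h6 : h c.P (c.K s) = ((d : ℝ) + 1) * (1 - s) := by
    have h7 := hn.pr0 s h0 h1
    rw [I_comm, I_eq, h_bot, sup_bot_eq, HP hq] at h7
    linarith
  have h7 := h_triangle c.P (vd c.q k) (c.K s)
  have h8 : h c.P (vd c.q k ⊔ c.K s) ≤ ((d : ℝ) + 1) * (1 - k) := by
    have h9 : h (vd c.q 1) (vd c.q k ⊔ c.K s) ≤ ∑ _j : Fin (d + 1), (1 - k) := by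
      refine (h_finsup_le Finset.univ _ _).trans (Finset.sum_le_sum fun j _ => ?_)
      exact (h_anti ((dg_le_vd c.q k j).trans le_sup_left)).trans (h_dg_dg (c.q j) hk)
    rw [Finset.sum_const, nsmul_eq_mul, Finset.card_univ, Fintype.card_fin] at h9
    push_cast at h9
    exact h9
  nlinarith

/-- lower frame coordinates of the box of scale `s` -/
def Gk (c : CD S d N r) (w : Fin N → ℝ) (z : Fin N) (s k : ℝ) : S.L :=
  (univ : Finset {j : Fin N // j ≠ z}).sup fun j => dg (c.γ s j.1) (w j.1 * s + k)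

theorem le_Gk (c : CD S d N r) (w : Fin N → ℝ) (s k : ℝ) {j : Fin N} (hj : j ≠ z) :
    dg (c.γ s j) (w j * s + k) ≤ Gk c w z s k := by
  obtain ⟨g, hg⟩ : ∃ g : {j : Fin N // j ≠ z} → S.L, g = fun j => dg (c.γ s j.1) (w j.1 * s + k) := ⟨_, rfl⟩
  have h1 : Gk c w z s k = univ.sup g := by rw [hg]; rfl
  have h2 := Finset.le_sup (f := g) (mem_univ (⟨j, hj⟩ : {j : Fin N // j ≠ z}))
  rw [h1]
  refine le_trans (le_of_eq ?_) h2
  rw [hg]

theorem Gk_le (c : CD S d N r) (w : Fin N → ℝ) (s k : ℝ) {A : S.L}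
    (h : ∀ j, j ≠ z → dg (c.γ s j) (w j * s + k) ≤ A) : Gk c w z s k ≤ A := by
  obtain ⟨g, hg⟩ : ∃ g : {j : Fin N // j ≠ z} → S.L, g = fun j => dg (c.γ s j.1) (w j.1 * s + k) := ⟨_, rfl⟩
  have h1 : Gk c w z s k = univ.sup g := by rw [hg]; rfl
  rw [h1]
  refine Finset.sup_le fun j _ => ?_
  rw [hg]
  exact h j.1 j.2

variable {s e : ℝ}

theorem we (w1 : ∀ j, 1 < w j) (wz : ∀ j, w j ≤ w z) (hs : 0 ≤ s) (hse : w z * s + e ≤ 1) (j : Fin N) :
    w j * s + e ≤ 1 := by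
  have := w1 z
  have h1 := mul_le_mul_of_nonneg_right (wz j) hs
  linarith

theorem low_ne (wz : ∀ j, w j ≤ w z) {j l : Fin N} (hj : j ≠ z) (hl : l = j ∨ w l < w j) : l ≠ z := by
  rintro rfl
  rcases hl with h | h
  · exact hj h.symm
  · exact absurd (h.trans_le (wz j)) (lt_irrefl _)

theorem lowz_ne {j l : Fin N} (hl : w l < w j) (wz : ∀ j, w j ≤ w z) : l ≠ z := by
  rintro rfl
  exact absurd (hl.trans_le (wz j)) (lt_irrefl _)

/-- lower frame coordinates are known to the lower coordinates of the point -/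
theorem γ_le_O (hb : c.Bx w z) (w1 : ∀ j, 1 < w j) (wz : ∀ j, w j ≤ w z) (hs : 0 ≤ s) (hs1 : w z * s ≤ 1)
    {k : ℝ} (hk : k ≤ 1) {A : S.L} (hK : c.K s ≤ A) (hO : vd (c.M z) 1 ⊔ c.P ≤ A) {j : Fin N} (hj : j ≠ z) :
    dg (c.γ s j) k ≤ A := by
  apply ga_le' hb w1 hs hs1 hK (le_sup_right.trans hO) hk
  intro l hl
  exact ((dg_mono _ hk).trans (M_le z (low_ne wz hj hl) 1)).trans (le_sup_left.trans hO)

/-- the data of the zoom of a corner -/
def zomC (hb : c.Bx w z) (hn : c.Num w z ρ) (hq : Rl c.q ⊥) (w1 : ∀ j, 1 < w j) (wz : ∀ j, w j ≤ w z) (hs : 0 ≤ s)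
    (he : 0 < e) (hse : w z * s + e ≤ 1) : Zom S.L where
  K := c.K
  q := fun k => vd c.q k
  G := Gk c w z s
  z := fun k => dg (c.γ s z) (w z * s + k)
  O := vd (c.M z) 1 ⊔ c.P
  s₀ := s
  e := e
  d := (d : ℝ) + 1
  n := (N : ℝ) - 1
  W := ∑ j ∈ univ.erase z, w j
  w := w z
  κ := 1 - ρ
  he := he
  hw := (w1 z).le
  mono := fun t ht ht1 => hb.mono s (s + t) hs (by linarith) (by linarith)
  hK := fun t ht ht1 => by
    have h1 : w z * (s + t) ≤ 1 := by linarith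
    have h2 := hn.hbe (s + t) (by linarith) h1
    have h3 := hn.hbe s hs (by linarith)
    have h4 := H_chain (c.K s) (c.K (s + t))
    rw [sup_eq_right.mpr (hb.mono s (s + t) hs (by linarith) h1)] at h4
    nlinarith
  monoq := fun k k' _ h _ => vd_mono _ (by linarith)
  monoG := fun k k' _ h _ => Gk_le c w s k fun j hj =>
    (dg_mono _ (by linarith)).trans (le_Gk c w s k' hj)
  qO := by
    have h1 : s + e ≤ 1 := by nlinarith [w1 z]
    exact (vd_mono _ h1).trans le_sup_right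
  GO := Gk_le c w s e fun j hj => γ_le_O hb w1 wz hs (by linarith) (we w1 wz hs hse j) le_sup_left le_sup_right hj
  hq := fun t ht ht1 => by
    have h1 : s + e ≤ 1 := by nlinarith [w1 z]
    have h2 : s + t ≤ s + e := by nlinarith [w1 z]
    rw [h_q_K hb hn hq (by linarith) (by linarith) h2 h1]
    ring
  Q := c.P
  qQ := by
    have h1 : s + e ≤ 1 := by nlinarith [w1 z]
    exact vd_mono _ h1
  QO := le_sup_right
  full := fun t ht ht1 => by
    have h1 : w z * (s + t) ≤ 1 := by linarith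
    have h2 := hn.pr2 (s + t) 1 (by linarith) h1 le_rfl
    rw [h_sup_right_of_le (le_sup_right : c.P ≤ c.K (s + t) ⊔ c.P), h2, mul_one]
  rest := fun k hk hke => by
    have hs1 : w z * s ≤ 1 := by linarith
    obtain ⟨g, hg⟩ : ∃ g : {j : Fin N // j ≠ z} → S.L, ∀ j, g j = dg (c.γ s j.1) 1 :=
      ⟨fun j => dg (c.γ s j.1) 1, fun _ => rfl⟩
    have h3 : vd (c.M z) 1 ⊔ c.P ≤ univ.sup g ⊔ (c.K s ⊔ c.P ⊔ Gk c w z s k) := by
      refine sup_le ?_ (((le_sup_right : c.P ≤ c.K s ⊔ c.P).trans le_sup_left).trans le_sup_right)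
      rw [vd_le]
      rintro ⟨j, hj⟩
      show dg (c.R j) 1 ≤ _
      apply R_le hb w1 hs hs1 ((le_sup_left.trans le_sup_left).trans le_sup_right)
        ((le_sup_right.trans le_sup_left).trans le_sup_right) le_rfl
      intro l hl
      have h4 := Finset.le_sup (f := g) (Finset.mem_univ (⟨l, low_ne wz hj hl⟩ : {j : Fin N // j ≠ z}))
      rw [hg] at h4
      exact h4.trans le_sup_left
    have h4 : h (vd (c.M z) 1 ⊔ c.P) (c.K s ⊔ c.P ⊔ Gk c w z s k) ≤ h (univ.sup g) (c.K s ⊔ c.P ⊔ Gk c w z s k) := by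
      refine (h_mono h3).trans ?_
      rw [h_sup_right_of_le le_rfl]
    have h5 : h (univ.sup g) (c.K s ⊔ c.P ⊔ Gk c w z s k) ≤ ∑ j : {j : Fin N // j ≠ z}, (1 - (w j.1 * s + k)) := by
      refine (h_finsup_le Finset.univ _ _).trans (Finset.sum_le_sum fun j _ => ?_)
      rw [hg]
      have hj1 : w j.1 * s + k ≤ 1 := by
        have := we w1 wz hs hse j.1
        linarith
      exact (h_anti ((le_Gk c w s k j.2).trans le_sup_right)).trans (h_dg_dg _ hj1)
    have h6 : ∑ j : {j : Fin N // j ≠ z}, (1 - (w j.1 * s + k)) =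
        ((N : ℝ) - 1) - (∑ j ∈ univ.erase z, w j) * s - ((N : ℝ) - 1) * k := by
      have h7 : ∀ j : {j : Fin N // j ≠ z}, 1 - (w j.1 * s + k) = (1 - k) - w j.1 * s := fun j => by ring
      simp only [h7]
      rw [Finset.sum_sub_distrib, sum_sub z (fun j => w j * s), Finset.sum_const, nsmul_eq_mul, Finset.card_univ,
        card_sub z, Finset.sum_mul]
      ring
    linarith
  cap := fun t k ht htk hke => by
    have h1 : w z * (s + t) ≤ 1 := by linarith
    have hss : s ≤ s + t := by linarith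
    have hk0 : 0 ≤ k := le_trans (mul_nonneg (zero_le_one.trans (w1 z).le) ht) htk
    obtain ⟨T, hT⟩ := Helper71.BLD.exists_tra hb hn hq w1 wz hs hss h1
    obtain ⟨g, hg⟩ : ∃ g : {j : Fin N // j ≠ z} → S.L, ∀ j, g j = dg (c.γ (s + t) j.1) (w j.1 * s + k) :=
      ⟨fun j => dg (c.γ (s + t) j.1) (w j.1 * s + k), fun _ => rfl⟩
    have hjk : ∀ j, w j * s + k ≤ 1 := fun j => by
      have := we w1 wz hs hse j
      linarith
    have h3 : Gk c w z s k ≤ univ.sup g ⊔ (c.K (s + t) ⊔ vd c.q (s + e)) := by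
      apply Gk_le
      intro j hj
      apply Tra.up hT hb w1 hs hss h1 hk0 (le_sup_left.trans le_sup_right)
        ((vd_mono _ (by linarith)).trans (le_sup_right.trans le_sup_right)) (hjk j)
      intro l hl
      have h4 := Finset.le_sup (f := g) (Finset.mem_univ (⟨l, low_ne wz hj hl⟩ : {j : Fin N // j ≠ z}))
      rw [hg] at h4
      exact h4.trans le_sup_left
    have h4 : h (Gk c w z s k) (c.K (s + t) ⊔ vd c.q (s + e)) ≤ h (univ.sup g) (c.K (s + t) ⊔ vd c.q (s + e)) := by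
      refine (h_mono h3).trans ?_
      rw [h_sup_right_of_le le_rfl]
    have h5 : h (univ.sup g) (c.K (s + t) ⊔ vd c.q (s + e)) ≤ ∑ j : {j : Fin N // j ≠ z}, (k - w j.1 * t) := by
      refine (h_finsup_le Finset.univ _ _).trans (Finset.sum_le_sum fun j _ => ?_)
      rw [hg]
      have h6 : w j.1 * t ≤ k := (mul_le_mul_of_nonneg_right (wz j.1) ht).trans htk
      have h7 := h_dg_Id (hb.fγ (s + t) (by linarith) h1 j.1) (k := w j.1 * s + k)
        (by rw [mul_add]; linarith) (hjk j.1) (c.K (s + t) ⊔ vd c.q (s + e))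
      refine h7.trans (le_of_eq ?_)
      ring
    have h6 : ∑ j : {j : Fin N // j ≠ z}, (k - w j.1 * t) =
        ((N : ℝ) - 1) * k - (∑ j ∈ univ.erase z, w j) * t := by
      rw [Finset.sum_sub_distrib, sum_sub z (fun j => w j * t), Finset.sum_const, nsmul_eq_mul, Finset.card_univ,
        card_sub z, Finset.sum_mul]
    linarith
  zk := fun t ht ht1 => by
    have h1 : w z * (s + t) ≤ 1 := by linarith
    have hss : s ≤ s + t := by linarith
    have hk0 : 0 ≤ w z * t := mul_nonneg (zero_le_one.trans (w1 z).le) ht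
    obtain ⟨T, hT⟩ := Helper71.BLD.exists_tra hb hn hq w1 wz hs hss h1
    have hjk : ∀ j, w j * s + w z * t ≤ 1 := fun j => by
      have := we w1 wz hs hse j
      linarith
    have hq' : vd c.q (s + w z * t) ≤ c.K (s + t) ⊔ (Gk c w z s e ⊔ vd c.q (s + e)) :=
      (vd_mono _ (by linarith)).trans (le_sup_right.trans le_sup_right)
    apply Tra.up hT hb w1 hs hss h1 hk0 le_sup_left hq' (hjk z)
    rintro l (rfl | hl)
    · have h2 : w l * s + w l * t = w l * (s + t) := by ring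
      rw [h2, dg_of_mem_Id (hb.fγ (s + t) (by linarith) h1 l) le_rfl h1]
      exact bot_le
    · refine Tra.down hT hb w1 hs hss h1 hk0 le_sup_left hq' _ l le_rfl (hjk l) ?_
      intro l' hl'
      have hlz : l ≠ z := lowz_ne hl wz
      exact ((dg_mono _ (by linarith)).trans (le_Gk c w s e (low_ne wz hlz hl'))).trans
        (le_sup_left.trans le_sup_right)
  D := fun k hk hke => by
    have hs1 : w z * s ≤ 1 := by linarith
    have hk1 : w z * s + k ≤ 1 := by linarith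
    have h1 := h_z_KO hb hn w1 wz hs (k := w z * s + k) (by linarith) hk1
    have h2 : h (dg (c.γ s z) (w z * s + k)) (c.K s ⊔ (vd (c.M z) 1 ⊔ c.P)) =
        h (dg (c.R z) (w z * s + k)) (c.K s ⊔ (vd (c.M z) 1 ⊔ c.P)) := by
      apply h_congr_left
      · apply ga_le' hb w1 hs hs1 (le_sup_left.trans le_sup_right)
          ((le_sup_right.trans le_sup_right).trans le_sup_right) hk1
        rintro l (rfl | hl)
        · exact le_sup_left
        · exact (((dg_mono _ hk1).trans (M_le z (lowz_ne hl wz) 1)).trans (le_sup_left.trans le_sup_right)).trans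
            le_sup_right
      · apply R_le hb w1 hs hs1 (le_sup_left.trans le_sup_right)
          ((le_sup_right.trans le_sup_right).trans le_sup_right) hk1
        rintro l (rfl | hl)
        · exact le_sup_left
        · exact (γ_le_O hb w1 wz hs hs1 hk1 le_sup_left le_sup_right (lowz_ne hl wz)).trans le_sup_right
    show h (dg (c.γ s z) (w z * s + k)) (c.K s ⊔ (vd (c.M z) 1 ⊔ c.P)) = (1 - ρ) * k
    rw [h2, h1]
    ring

end corner

section zoom

variable {S : Sp} {d N r : ℕ} {c : CD S d N r} {w : Fin N → ℝ} {z : Fin N} {ρ : ℝ} {s e : ℝ} {he : 0 < e}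
  {h1 : e ≤ 1} {Z : ∀ k, Setoid (S.F k).Ω} {c' : CD (S.chg Z e he) d N r}

/-- the boxes of the zoom -/
theorem zr_K (hb : c.Bx w z) (hz : c.ZR w z s e he h1 Z c') {t : ℝ} (ht : 0 ≤ t) (ht1 : w z * (s + e * t) ≤ 1) :
    c'.K t = chgL Z e he (c.K (s + e * t)) := by
  have e1 := hz.VK t ht ht1
  have hB : Bdd (S := S.chg Z e he) (c.VK (s + e * t)) := chg_VB Z e he (hb.bdd _)
  have h2 : ∀ᶠ k in UF, ∀ ω ω', ((S.chg Z e he).F k).μ ω ≠ 0 → ((S.chg Z e he).F k).μ ω' ≠ 0 →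
      ((S.chg Z e he).F k).Z ω ω' → c.VK (s + e * t) k ω = c.VK (s + e * t) k ω' → c'.VK t k ω = c'.VK t k ω' :=
    Eventually.of_forall fun k ω ω' a b g hω => (e1 k ω ω' a b g).mpr hω
  unfold CD.K
  rw [chgL_io Z e he (hb.bdd _)]
  apply le_antisymm
  · exact io_le_of_fun hB h2
  · refine io_le_of_fun (hB.of_fun h2) ?_
    exact Eventually.of_forall fun k ω ω' a b g hω => (e1 k ω ω' a b g).mp hω

/-- **THE NUMBERS OF THE ZOOM** -/
theorem num_zoom (hb : c.Bx w z) (hn : c.Num w z ρ) (hq : Rl c.q ⊥) (w1 : ∀ j, 1 < w j) (wz : ∀ j, w j ≤ w z)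
    (hs : 0 ≤ s) (hse : w z * s + e ≤ 1) (hz : c.ZR w z s e he h1 Z c') : c'.Num w z ρ := by
  have hwz0 : 0 < w z := zero_lt_one.trans (w1 z)
  have hs1 : w z * s ≤ 1 := by linarith
  have hsse : s + e ≤ 1 := by nlinarith [w1 z]
  have hZ : Z = (hb.bdd s).toInf.1 := funext hz.base
  subst hZ
  have hK : cl (hb.bdd s).toInf = c.K s := (io_eq _).symm
  choose X hX hX' using hz.q
  choose Y hY hY' using hz.R
  -- boxes
  have kK : ∀ t, 0 ≤ t → w z * t ≤ 1 → c'.K t = chgL (hb.bdd s).toInf.1 e he (c.K (s + e * t)) := by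
    intro t ht ht1
    apply zr_K hb hz ht
    nlinarith
  -- base point
  have kX : ∀ k, 0 ≤ k → k ≤ 1 → vd X (e * k) ≤ vd c.q (s + e * k) ⊔ c.K s ∧
      vd c.q (s + e * k) ≤ vd X (e * k) ⊔ c.K s := by
    intro k hk hk1
    have h0 : 0 ≤ e * k := mul_nonneg he.le hk
    have h2 : s + e * k ≤ 1 := by nlinarith
    constructor
    · rw [vd_le]
      intro i
      have h3 := dg_of_sc hs (by linarith : s ≤ s + e * k) h2 (X i)
      rw [add_sub_cancel_left, ← hX] at h3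
      refine h3.trans ((dg_sub_le _ _ h2).trans (sup_le ?_ ?_))
      · exact (dg_le_vd c.q _ i).trans le_sup_left
      · exact ((dg_mono _ h2).trans (q0_le hb s i)).trans le_sup_right
    · rw [vd_le]
      intro i
      have e1 : c.q i = sc S s * X i + c.q0 s i := by
        rw [← hX i]
        ring
      rw [e1]
      refine (dg_add_le _ _ h2).trans (sup_le ?_ ?_)
      · have h3 := dg_sc_mul hs (by linarith : s ≤ s + e * k) h2 (X i)
        rw [add_sub_cancel_left] at h3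
        exact (h3.trans (dg_le_vd X _ i)).trans le_sup_left
      · exact ((dg_mono _ h2).trans (q0_le hb s i)).trans le_sup_right
  have kq : ∀ k, 0 ≤ k → k ≤ 1 → vd c'.q k = chgL (hb.bdd s).toInf.1 e he (vd c.q (s + e * k)) := by
    intro k hk hk1
    have e1 : vd c'.q k = chgL (hb.bdd s).toInf.1 e he (vd X (e * k)) := by
      rw [← cQ_vd (hb.bdd s).toInf.1 e he h1 X hk1]
      exact Helper38.NS.vd_congr hX' k
    rw [e1]
    apply le_antisymm
    · rw [chgL_le_inf, hK]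
      exact (kX k hk hk1).1
    · rw [chgL_le_inf, hK]
      exact (kX k hk hk1).2
  -- vertical coordinates
  have kY : ∀ j k, 0 ≤ k → k ≤ 1 → dg (Y j) (e * k) = dg (c.γ s j) (w j * s + e * k) := by
    intro j k hk hk1
    have h0 : 0 ≤ e * k := mul_nonneg he.le hk
    have hw0 : 0 ≤ w j * s := mul_nonneg (zero_le_one.trans (w1 j).le) hs
    have h2 : w j * s + e * k ≤ 1 := by
      have := we w1 wz hs hse j
      nlinarith
    rw [hY j, dg_scl (Y j) hw0 h2, add_sub_cancel_left]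
  have kM : ∀ k, 0 ≤ k → k ≤ 1 → vd (c'.M z) k = chgL (hb.bdd s).toInf.1 e he (Gk c w z s (e * k)) := by
    intro k hk hk1
    have e1 : vd (c'.M z) k = chgL (hb.bdd s).toInf.1 e he (vd (fun j : {j : Fin N // j ≠ z} => Y j.1) (e * k)) := by
      rw [← cQ_vd (hb.bdd s).toInf.1 e he h1 (fun j : {j : Fin N // j ≠ z} => Y j.1) hk1]
      exact Helper38.NS.vd_congr (fun j : {j : Fin N // j ≠ z} => hY' j.1) k
    rw [e1]
    congr 1
    apply le_antisymm
    · rw [vd_le]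
      rintro ⟨j, hj⟩
      show dg (Y j) (e * k) ≤ _
      rw [kY j k hk hk1]
      exact le_Gk c w s (e * k) hj
    · apply Gk_le
      intro j hj
      rw [← kY j k hk hk1]
      exact dg_le_vd (fun j : {j : Fin N // j ≠ z} => Y j.1) (e * k) ⟨j, hj⟩
  have kz : ∀ k, 0 ≤ k → k ≤ 1 → dg (c'.R z) k = chgL (hb.bdd s).toInf.1 e he (dg (c.γ s z) (w z * s + e * k)) := by
    intro k hk hk1
    rw [hY' z, cQ_dg _ e he h1 (Y z) hk1, kY z k hk hk1]
  have kP : c'.P = chgL (hb.bdd s).toInf.1 e he (vd c.q (s + e)) := by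
    have h2 := kq 1 zero_le_one le_rfl
    rw [mul_one] at h2
    exact h2
  have mono : ∀ t, 0 ≤ t → w z * t ≤ 1 → c.K s ≤ c.K (s + e * t) := fun t ht ht1 =>
    hb.mono s (s + e * t) hs (by have := mul_nonneg he.le ht; linarith) (by nlinarith)
  have het : ∀ t, 0 ≤ t → w z * t ≤ 1 → 0 ≤ e * t ∧ w z * (e * t) ≤ e := fun t ht ht1 =>
    ⟨mul_nonneg he.le ht, by nlinarith⟩
  refine ⟨?_, ?_, ?_, ?_, ?_⟩
  · intro t ht ht1
    obtain ⟨b0, b1⟩ := het t ht ht1
    have h2 := (zomC hb hn hq w1 wz hs he hse).hK b0 b1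
    have h3 : h (c.K (s + e * t)) (c.K s) = ((d : ℝ) + 1 + (∑ j ∈ univ.erase z, w j) + (1 - ρ) * w z) * (e * t) := h2
    rw [kK t ht ht1, H_chgL_inf, hK, h3]
    field_simp
  · intro t ht ht1
    obtain ⟨b0, b1⟩ := het t ht ht1
    have h3 : I (c.K (s + e * t)) (vd c.q (s + e)) (c.K s) = ((d : ℝ) + 1) * (e * t) :=
      (zomC hb hn hq w1 wz hs he hse).pr0 b0 b1
    have h4 := I_chgL_inf e he (hb.bdd s).toInf (c.K (s + e * t)) (vd c.q (s + e)) ⊥
    rw [kK t ht ht1, kP]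
    rw [chgL_bot, bot_sup_eq, hK, h3] at h4
    rw [h4]
    field_simp
  · intro k hk hk1
    have b0 : 0 ≤ e * k := mul_nonneg he.le hk
    have b1 : e * k ≤ e := by nlinarith
    have h3 : h (Gk c w z s (e * k)) (c.K s ⊔ vd c.q (s + e)) = ((N : ℝ) - 1) * (e * k) :=
      (zomC hb hn hq w1 wz hs he hse).pr1 b0 b1
    rw [kM k hk hk1, kP, h_chgL_inf, hK, sup_comm (vd c.q _), h3]
    field_simp
  · intro t k ht htk hk1
    have hk : 0 ≤ k := (mul_nonneg hwz0.le ht).trans htk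
    obtain ⟨b0, b1⟩ := het t ht (htk.trans hk1)
    have b2 : w z * (e * t) ≤ e * k := by
      have := mul_le_mul_of_nonneg_left htk he.le
      linarith
    have b3 : e * k ≤ e := by nlinarith
    have h3 : h (Gk c w z s (e * k)) (c.K (s + e * t) ⊔ vd c.q (s + e)) =
        ((N : ℝ) - 1) * (e * k) - (∑ j ∈ univ.erase z, w j) * (e * t) :=
      (zomC hb hn hq w1 wz hs he hse).hG b0 b2 b3
    have h4 : c.K (s + e * t) ⊔ vd c.q (s + e) ⊔ c.K s = c.K (s + e * t) ⊔ vd c.q (s + e) :=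
      sup_eq_left.mpr ((mono t ht (htk.trans hk1)).trans le_sup_left)
    rw [kM k hk hk1, kP, kK t ht (htk.trans hk1), ← chgL_sup, h_chgL_inf, hK, h4, h3]
    field_simp
  · intro t ht ht1
    obtain ⟨b0, b1⟩ := het t ht ht1
    have b2 : w z * t ≤ 1 := ht1
    have b3 : 0 ≤ w z * t := mul_nonneg hwz0.le ht
    have h3 : c.K (s + e * t) ≤ dg (c.γ s z) (w z * s + w z * (e * t)) ⊔
        (c.K s ⊔ (Gk c w z s e ⊔ vd c.q (s + e))) := (zomC hb hn hq w1 wz hs he hse).vis b0 b1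
    have h4 := kM 1 zero_le_one le_rfl
    rw [mul_one] at h4
    rw [kK t ht ht1, kz (w z * t) b3 b2, h4, kP, ← chgL_sup, ← chgL_sup, chgL_le_inf, hK]
    have e1 : w z * (e * t) = e * (w z * t) := by ring
    rw [e1] at h3
    refine h3.trans ?_
    refine sup_le (le_sup_left.trans le_sup_left) (sup_le le_sup_right ?_)
    exact le_sup_right.trans le_sup_left

end zoom

end

end Pool.Agent.Helper33.CM
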