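import Pool.Agent.Helper33.CM.Swap
import Pool.Agent.Helper33.CM.Num

/-! The numbers `h(P_a, z_b | kappa_s)` of a homogeneous system (`z` = coordinate of largest weight `w`, `P` = the other
coordinates) and fullness of the base point give all numbers of the corner: the labels are visible at the point to level
`w s`, (D), (0.1); for literal labels: `HCor` and `HCor.Vis`. -/

set_option autoImplicit false

namespace Pool.Agent.Helper33.CM

/-- numbers of a homogeneous system; `M` = number of the coordinates `P`, `W` = their total weight -/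
structure HomN (L : Type*) [SemilatticeSup L] extends Ent L where
  P : ℝ → L
  z : ℝ → L
  M : ℝ
  W : ℝ
  w : ℝ
  ρ : ℝ
  A : ℝ
  hw : 0 < w
  monoP : ∀ ⦃a b : ℝ⦄, 0 ≤ a → a ≤ b → b ≤ A → P a ≤ P b
  monoz : ∀ ⦃a b : ℝ⦄, 0 ≤ a → a ≤ b → b ≤ A → z a ≤ z b
  num : ∀ ⦃s b a : ℝ⦄, 0 ≤ s → w * s ≤ b → b ≤ a → a ≤ A → φ s (P a ⊔ z b) = M * a - W * s + (1 - ρ) * (b - w * s)

namespace HomN

variable {L : Type*} [SemilatticeSup L] (T : HomN L)

/-- all digits -/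
def X : L := T.P T.A ⊔ T.z T.A

theorem le_X {b a : ℝ} (hb : 0 ≤ b) (hba : b ≤ a) (hA : a ≤ T.A) : T.P a ⊔ T.z b ≤ T.X :=
  sup_le_sup (T.monoP (hb.trans hba) hA le_rfl) (T.monoz hb (hba.trans hA) le_rfl)

/-- information of the label -/
theorem info {s b a : ℝ} (hs : 0 ≤ s) (hb : T.w * s ≤ b) (hba : b ≤ a) (hA : a ≤ T.A) :
    T.φ 0 (T.P a ⊔ T.z b) - T.φ s (T.P a ⊔ T.z b) = (T.W + (1 - T.ρ) * T.w) * s := by
  have hb0 : 0 ≤ b := (mul_nonneg T.hw.le hs).trans hb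
  rw [T.num hs hb hba hA, T.num le_rfl (by rw [mul_zero]; exact hb0) hba hA]
  ring

/-- **VISIBILITY**: the label says nothing about the point beyond `(P_a, z_b)`, `w s ≤ b ≤ a` -/
theorem vis {s b a : ℝ} (hs : 0 ≤ s) (hb : T.w * s ≤ b) (hba : b ≤ a) (hA : a ≤ T.A) :
    T.J s T.X (T.P a ⊔ T.z b) = 0 := by
  have hb0 : 0 ≤ b := (mul_nonneg T.hw.le hs).trans hb
  have h1 := T.info hs hb hba hA
  have h2 := T.info hs (hb.trans (hba.trans hA)) le_rfl le_rfl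
  unfold Ent.J Ent.c
  rw [sup_eq_left.mpr (T.le_X hb0 hba hA)]
  unfold X
  linarith

/-- (D) -/
theorem D {s b b' a : ℝ} (hs : 0 ≤ s) (hb : T.w * s ≤ b) (hbb : b ≤ b') (hba : b' ≤ a) (hA : a ≤ T.A) :
    T.c s (T.z b') (T.P a ⊔ T.z b) = (1 - T.ρ) * (b' - b) := by
  have hb0 : 0 ≤ b := (mul_nonneg T.hw.le hs).trans hb
  have e : T.z b' ⊔ (T.P a ⊔ T.z b) = T.P a ⊔ T.z b' := by
    apply le_antisymm
    · exact sup_le le_sup_right (sup_le_sup_left (T.monoz hb0 hbb (hba.trans hA)) _)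
    · exact sup_le (le_sup_left.trans le_sup_right) le_sup_left
  unfold Ent.c
  rw [e, T.num hs (hb.trans hbb) hba hA, T.num hs hb (hbb.trans hba) hA]
  ring

/-- thickness of the box in the direction `z` -/
theorem thick (hpr : ∀ ⦃s a : ℝ⦄, 0 ≤ s → T.w * s ≤ a → a ≤ T.A → T.φ s (T.P a) = T.M * a - T.W * s) {s : ℝ}
    (hs : 0 ≤ s) (hA : T.w * s ≤ T.A) : T.c s (T.z (T.w * s)) (T.P (T.w * s)) = 0 := by
  unfold Ent.c
  rw [sup_comm, T.num hs le_rfl le_rfl hA, hpr hs le_rfl hA]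
  ring

end HomN

/-- the swapped system -/
noncomputable def SwpD.hom {L : Type*} [SemilatticeSup L] (T : SwpD L) : HomN L where
  toEnt := T.toEnt
  P a := T.P a ⊔ T.z a
  z := T.p
  M := T.n + 1
  W := T.W + T.w
  w := T.w'
  ρ := T.ρ'
  A := T.C
  hw := T.hw'
  monoP a b ha hab hb := by
    have h1 : T.C ≤ T.A := by
      have h2 := T.w'C
      have h3 : 0 ≤ T.C := (ha.trans hab).trans hb
      have h4 : T.w * T.C ≤ T.w' * T.C := mul_le_mul_of_nonneg_right T.hww h3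
      exact le_of_mul_le_mul_left (h4.trans h2.le) T.hw
    exact sup_le_sup (T.monoP ha hab (hb.trans h1)) (T.monoz ha hab (hb.trans h1))
  monoz a b ha hab hb := by
    have h1 : T.C ≤ T.A := by
      have h2 := T.w'C
      have h3 : 0 ≤ T.C := (ha.trans hab).trans hb
      have h4 : T.w * T.C ≤ T.w' * T.C := mul_le_mul_of_nonneg_right T.hww h3
      exact le_of_mul_le_mul_left (h4.trans h2.le) T.hw
    exact T.monop ha hab (hb.trans h1)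
  num s b a hs hb hba hA := by
    have h1 : T.w' * a ≤ T.w * T.A := by
      rw [← T.w'C]
      exact mul_le_mul_of_nonneg_left hA T.hw'.le
    rw [T.swap hs hb hba h1]
    ring

open Pool.Agent.Helper31.EC

/-- HOMOGENEOUS SYSTEM WITH LITERAL LABELS: `be s` = box of scale `s`, `q a` = the coordinates of weight one (number
`d`) to level `a`, `M k` = the other lower coordinates (number `N`, total weight `W`), `z k` = the top coordinate -/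
structure HomL (L : Type*) [PM L] where
  be : ℝ → L
  q : ℝ → L
  M : ℝ → L
  z : ℝ → L
  d : ℝ
  N : ℝ
  W : ℝ
  w : ℝ
  ρ : ℝ
  A : ℝ
  hw : 0 < w
  hA : 0 ≤ A
  monobe : ∀ ⦃s s' : ℝ⦄, 0 ≤ s → s ≤ s' → w * s' ≤ A → be s ≤ be s'
  monoq : ∀ ⦃a b : ℝ⦄, 0 ≤ a → a ≤ b → b ≤ A → q a ≤ q b
  monoM : ∀ ⦃a b : ℝ⦄, 0 ≤ a → a ≤ b → b ≤ A → M a ≤ M b
  monoz : ∀ ⦃a b : ℝ⦄, 0 ≤ a → a ≤ b → b ≤ A → z a ≤ z b
  num : ∀ ⦃s b a : ℝ⦄, 0 ≤ s → w * s ≤ b → b ≤ a → a ≤ A →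
    h (q a ⊔ M a ⊔ z b) (be s) = (d + N) * a - (d + W) * s + (1 - ρ) * (b - w * s)
  /-- (PR) -/
  pr : ∀ ⦃s a : ℝ⦄, 0 ≤ s → w * s ≤ a → a ≤ A → h (q a ⊔ M a) (be s) = (d + N) * a - (d + W) * s
  prq : ∀ ⦃s a : ℝ⦄, 0 ≤ s → w * s ≤ a → a ≤ A → h (q a) (be s) = d * a - d * s
  /-- digits -/
  digM : ∀ ⦃a b : ℝ⦄, 0 ≤ a → a ≤ b → b ≤ A → h (M b) (M a) ≤ N * (b - a)
  /-- the boxes are functions of the point -/
  lit : ∀ ⦃s : ℝ⦄, 0 ≤ s → w * s ≤ A → be s ≤ be 0 ⊔ (q A ⊔ M A ⊔ z A)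

namespace HomL

variable {L : Type*} [PM L] (T : HomL L)

theorem be0 {s : ℝ} (hs : 0 ≤ s) (h' : T.w * s ≤ T.A) : T.be 0 ≤ T.be s := T.monobe le_rfl hs h'

/-- information of the box at the point -/
theorem info {s b a : ℝ} (hs : 0 ≤ s) (hb : T.w * s ≤ b) (hba : b ≤ a) (hA : a ≤ T.A) :
    h (T.q a ⊔ T.M a ⊔ T.z b) (T.be 0) - h (T.q a ⊔ T.M a ⊔ T.z b) (T.be s) =
      (T.d + T.W + (1 - T.ρ) * T.w) * s := by
  have hb0 : 0 ≤ b := (mul_nonneg T.hw.le hs).trans hb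
  rw [T.num hs hb hba hA, T.num le_rfl (by rw [mul_zero]; exact hb0) hba hA]
  ring

/-- information of the box -/
theorem h_be {s : ℝ} (hs : 0 ≤ s) (h' : T.w * s ≤ T.A) :
    h (T.be s) (T.be 0) = (T.d + T.W + (1 - T.ρ) * T.w) * s := by
  have h1 := T.info hs h' le_rfl le_rfl
  obtain ⟨X, hX⟩ : ∃ X, X = T.q T.A ⊔ T.M T.A ⊔ T.z T.A := ⟨_, rfl⟩
  have h2 := T.lit hs h'
  rw [← hX] at h1 h2
  have h3 : h X (T.be 0) = h (T.be s) (T.be 0) + h X (T.be s ⊔ T.be 0) := by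
    apply h_split
    rw [sup_comm]
    exact h2
  rw [sup_eq_left.mpr (T.be0 hs h')] at h3
  linarith

/-- **(0.1)**: the box is a function of the point to level `w s` -/
theorem be_le {s b a : ℝ} (hs : 0 ≤ s) (hb : T.w * s ≤ b) (hba : b ≤ a) (hA : a ≤ T.A) :
    T.be s ≤ T.be 0 ⊔ (T.q a ⊔ T.M a ⊔ T.z b) := by
  have h' : T.w * s ≤ T.A := hb.trans (hba.trans hA)
  obtain ⟨Y, hY⟩ : ∃ Y, Y = T.q a ⊔ T.M a ⊔ T.z b := ⟨_, rfl⟩
  have h1 := T.info hs hb hba hA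
  have h2 := T.h_be hs h'
  rw [← hY] at h1 ⊢
  rw [← h_le_zero_iff]
  have h3 : h (T.be s ⊔ Y) (T.be 0) = h (T.be s) (T.be 0) + h Y (T.be s ⊔ T.be 0) := h_chain _ _ _
  have h4 : h (Y ⊔ T.be s) (T.be 0) = h Y (T.be 0) + h (T.be s) (Y ⊔ T.be 0) := h_chain _ _ _
  rw [sup_eq_left.mpr (T.be0 hs h')] at h3
  rw [sup_comm Y (T.be s)] at h4
  rw [sup_comm Y (T.be 0)] at h4
  linarith

/-- thickness -/
theorem z_le {s : ℝ} (hs : 0 ≤ s) (h' : T.w * s ≤ T.A) :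
    T.z (T.w * s) ≤ T.be s ⊔ (T.q (T.w * s) ⊔ T.M (T.w * s)) := by
  obtain ⟨Y, hY⟩ : ∃ Y, Y = T.q (T.w * s) ⊔ T.M (T.w * s) := ⟨_, rfl⟩
  have h1 := T.num hs le_rfl le_rfl h'
  have h2 := T.pr hs le_rfl h'
  rw [← hY] at h1 h2 ⊢
  rw [← h_le_zero_iff, sup_comm (T.be s)]
  have h3 := h_chain Y (T.z (T.w * s)) (T.be s)
  rw [h1, h2, sub_self, mul_zero] at h3
  linarith

theorem hqM {s k : ℝ} (hs : 0 ≤ s) (hk : T.w * s ≤ k) (hkA : k ≤ T.A) :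
    h (T.M k) (T.be s ⊔ T.q T.A) = T.N * k - T.W * s := by
  have hk0 : 0 ≤ k := (mul_nonneg T.hw.le hs).trans hk
  have h1 := T.pr hs (hk.trans hkA) le_rfl
  have h2 := T.prq hs (hk.trans hkA) le_rfl
  have h3 := T.pr hs hk hkA
  have h4 := T.prq hs hk hkA
  have h5 : h (T.q T.A ⊔ T.M T.A) (T.be s) = h (T.q T.A) (T.be s) + h (T.M T.A) (T.q T.A ⊔ T.be s) := h_chain _ _ _
  have h6 : h (T.q k ⊔ T.M k) (T.be s) = h (T.q k) (T.be s) + h (T.M k) (T.q k ⊔ T.be s) := h_chain _ _ _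
  have hmono := T.monoM hk0 hkA le_rfl
  have h7 : h (T.M T.A) (T.q T.A ⊔ T.be s) = h (T.M k) (T.q T.A ⊔ T.be s) + h (T.M T.A) (T.M k ⊔ (T.q T.A ⊔ T.be s)) :=
    h_split (hmono.trans le_sup_left)
  have h8 : h (T.M T.A) (T.M k ⊔ (T.q T.A ⊔ T.be s)) ≤ T.N * (T.A - k) :=
    (h_anti le_sup_left).trans (T.digM hk0 hkA le_rfl)
  have h9 : h (T.M k) (T.q T.A ⊔ T.be s) ≤ h (T.M k) (T.q k ⊔ T.be s) :=
    h_anti (sup_le_sup_right (T.monoq hk0 hkA le_rfl) _)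
  rw [sup_comm (T.be s)]
  apply le_antisymm
  · linarith
  · nlinarith

/-- **the corner** -/
noncomputable def cor : HCor L where
  F := T.be 0
  q := T.be 0 ⊔ T.q T.A
  M := T.M
  z := T.z
  be := T.be
  B := T.A
  N := T.N
  W := T.W
  d := T.d
  w := T.w
  A₀ := T.d + T.W + (1 - T.ρ) * T.w
  hB := T.hA
  hw := T.hw
  Fq := le_sup_left
  monoM := T.monoM
  monoz := T.monoz
  hbe _ hs h' := T.h_be hs h'
  pr0 s hs h' := by
    have h1 := T.prq hs h' le_rfl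
    have h2 := T.prq (le_refl (0 : ℝ)) (a := T.A) (by rw [mul_zero]; exact T.hA) le_rfl
    have h3 : I (T.be s) (T.be 0 ⊔ T.q T.A) (T.be 0) = h (T.be 0 ⊔ T.q T.A) (T.be 0) -
        h (T.be 0 ⊔ T.q T.A) (T.be s ⊔ T.be 0) := I_eq' _ _ _
    rw [sup_eq_left.mpr (T.be0 hs h')] at h3
    have h4 : h (T.be 0 ⊔ T.q T.A) (T.be 0) = h (T.q T.A) (T.be 0) :=
      h_congr_left (sup_le le_sup_right le_sup_left) (le_sup_right.trans le_sup_left)
    have h5 : h (T.be 0 ⊔ T.q T.A) (T.be s) = h (T.q T.A) (T.be s) :=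
      h_congr_left (sup_le ((T.be0 hs h').trans le_sup_right) le_sup_left) (le_sup_right.trans le_sup_left)
    rw [h3, h4, h5, h1, h2]
    ring
  pr1 k hk hkA := by
    have h1 := T.hqM (le_refl (0 : ℝ)) (k := k) (by rw [mul_zero]; exact hk) hkA
    rw [h1]; ring
  pr2 s k hs hk hkA := by
    have h1 := T.hqM hs hk hkA
    have h2 : T.be s ⊔ (T.be 0 ⊔ T.q T.A) = T.be s ⊔ T.q T.A := by
      rw [← sup_assoc, sup_eq_left.mpr (T.be0 hs (hk.trans hkA))]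
    rw [h2, h1]
  zk s hs h' := by
    have h0 : 0 ≤ T.w * s := mul_nonneg T.hw.le hs
    refine (T.z_le hs h').trans (sup_le le_sup_left (sup_le ?_ (le_sup_left.trans le_sup_right)))
    exact (T.monoq h0 h' le_rfl).trans (le_sup_right.trans (le_sup_right.trans le_sup_right))

/-- **(I3)** -/
theorem cor_vis : T.cor.Vis := by
  intro s hs h'
  have h0 : 0 ≤ T.w * s := mul_nonneg T.hw.le hs
  have h1 : T.be s ≤ T.be 0 ⊔ (T.q T.A ⊔ T.M T.A ⊔ T.z (T.w * s)) := T.be_le hs le_rfl h' le_rfl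
  refine h1.trans ?_
  show T.be 0 ⊔ (T.q T.A ⊔ T.M T.A ⊔ T.z (T.w * s)) ≤ T.z (T.w * s) ⊔ (T.M T.A ⊔ (T.be 0 ⊔ T.q T.A))
  refine sup_le ?_ (sup_le (sup_le ?_ ?_) le_sup_left)
  · exact le_sup_left.trans (le_sup_right.trans le_sup_right)
  · exact le_sup_right.trans (le_sup_right.trans le_sup_right)
  · exact le_sup_left.trans le_sup_right

theorem cor_κ : T.cor.κ = 1 - T.ρ := by
  have := T.hw
  have h1 : T.cor.κ = (T.d + T.W + (1 - T.ρ) * T.w - T.d - T.W) / T.w := rfl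
  rw [h1]
  field_simp
  ring

end HomL

end Pool.Agent.Helper33.CM
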