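import Pool.Agent.Helper31.EC.PM

/-! ns_notes_94 (C)(5), SWAP: the numbers of a homogeneous system with respect to a coordinate `z` of any weight give
the numbers with respect to the coordinate `p` of largest weight. The labels `kappa_s` enter only through the
conditional entropies `φ s X = h(X | kappa_s)` of the informations of the point (labels need not be literal functions).
`P a` = the coordinates other than `p`, `z` to level `a`. -/

set_option autoImplicit false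

namespace Pool.Agent.Helper33.CM

variable {L : Type*} [SemilatticeSup L]

/-- conditional entropies over an increasing family of labels -/
structure Ent (L : Type*) [SemilatticeSup L] where
  φ : ℝ → L → ℝ
  mono : ∀ ⦃s : ℝ⦄, 0 ≤ s → ∀ ⦃X Y : L⦄, X ≤ Y → φ s X ≤ φ s Y
  sub : ∀ ⦃s : ℝ⦄, 0 ≤ s → ∀ X Y Z : L, φ s (X ⊔ Y ⊔ Z) + φ s Z ≤ φ s (X ⊔ Z) + φ s (Y ⊔ Z)
  anti : ∀ ⦃s : ℝ⦄, 0 ≤ s → ∀ X Y : L, φ s (X ⊔ Y) - φ s Y ≤ φ 0 (X ⊔ Y) - φ 0 Y

namespace Ent

variable (E : Ent L)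

/-- `h(X | Y, kappa_s)` -/
def c (s : ℝ) (X Y : L) : ℝ := E.φ s (X ⊔ Y) - E.φ s Y

theorem c_nonneg {s : ℝ} (hs : 0 ≤ s) (X Y : L) : 0 ≤ E.c s X Y := by
  have := E.mono hs (le_sup_right : Y ≤ X ⊔ Y)
  unfold c; linarith

theorem c_anti {s : ℝ} (hs : 0 ≤ s) (X : L) {Y Y' : L} (h : Y ≤ Y') : E.c s X Y' ≤ E.c s X Y := by
  have h1 := E.sub hs X Y' Y
  rw [sup_eq_left.mpr h] at h1
  have h2 : X ⊔ Y' ⊔ Y = X ⊔ Y' := by rw [sup_assoc, sup_eq_left.mpr h]
  rw [h2] at h1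
  unfold c; linarith

theorem c_mono {s : ℝ} (hs : 0 ≤ s) {X X' : L} (Y : L) (h : X ≤ X' ⊔ Y) : E.c s X Y ≤ E.c s X' Y := by
  have h1 := E.mono hs (sup_le h le_sup_right : X ⊔ Y ≤ X' ⊔ Y)
  unfold c; linarith

theorem c_chain (s : ℝ) (X X' Y : L) : E.c s (X ⊔ X') Y = E.c s X' Y + E.c s X (X' ⊔ Y) := by
  unfold c
  rw [sup_assoc]; ring

theorem c_le (s : ℝ) (hs : 0 ≤ s) (X Y : L) : E.c s X Y ≤ E.c 0 X Y := E.anti hs X Y

/-- information of the label -/
def J (s : ℝ) (X Y : L) : ℝ := E.c 0 X Y - E.c s X Y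

theorem J_nonneg {s : ℝ} (hs : 0 ≤ s) (X Y : L) : 0 ≤ E.J s X Y := sub_nonneg.mpr (E.c_le s hs X Y)

theorem J_chain (s : ℝ) (X X' Y : L) : E.J s (X ⊔ X') Y = E.J s X' Y + E.J s X (X' ⊔ Y) := by
  unfold J
  rw [E.c_chain, E.c_chain]; ring

theorem J_congr (s : ℝ) {X X' : L} (Y : L) (h : X ⊔ Y = X' ⊔ Y) : E.J s X Y = E.J s X' Y := by
  unfold J c
  rw [h]

/-- if the label says nothing about `X` given `Y` it says nothing about `X` given `Y` and a part of `X` -/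
theorem J_zero {s : ℝ} (hs : 0 ≤ s) {X Y Y' : L} (h : E.J s X Y = 0) (h1 : Y ≤ Y') (h2 : Y' ≤ X ⊔ Y) :
    E.J s X Y' = 0 := by
  have e1 := E.J_chain s X Y' Y
  have e2 : X ⊔ Y' ⊔ Y = X ⊔ Y := by
    apply le_antisymm
    · exact sup_le (sup_le le_sup_left h2) le_sup_right
    · exact sup_le (le_sup_left.trans le_sup_left) le_sup_right
  rw [E.J_congr s Y e2, h, sup_eq_left.mpr h1] at e1
  have e3 := E.J_nonneg hs Y' Y
  have e4 := E.J_nonneg hs X Y'
  linarith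

end Ent

/-- the numbers with respect to `z`; `w` = weight of `z`, `w'` = weight of `p` (the largest one), `n` = number of the
other coordinates, `W` = their total weight, `ρ` = deficit of `z`, `A` = depth. The digits of `z` to level `b` are seen from the other coordinates to level `w' b / w`. -/
structure SwpD (L : Type*) [SemilatticeSup L] extends Ent L where
  P : ℝ → L
  p : ℝ → L
  z : ℝ → L
  n : ℝ
  W : ℝ
  w : ℝ
  w' : ℝ
  ρ : ℝ
  A : ℝ
  hw : 0 < w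
  hww : w ≤ w'
  monoP : ∀ ⦃a b : ℝ⦄, 0 ≤ a → a ≤ b → b ≤ A → P a ≤ P b
  monop : ∀ ⦃a b : ℝ⦄, 0 ≤ a → a ≤ b → b ≤ A → p a ≤ p b
  monoz : ∀ ⦃a b : ℝ⦄, 0 ≤ a → a ≤ b → b ≤ A → z a ≤ z b
  /-- deficit of `z` -/
  num : ∀ ⦃s b a : ℝ⦄, 0 ≤ s → w * s ≤ b → w' * b ≤ w * a → a ≤ A →
    φ s (P a ⊔ p a ⊔ z b) = n * a - W * s + (a - w' * s) + (1 - ρ) * (b - w * s)
  /-- the coordinates other than `p` are full over the labels -/
  pr : ∀ ⦃s a : ℝ⦄, 0 ≤ s → w' * s ≤ a → a ≤ A → φ s (P a ⊔ z a) = n * a - W * s + (a - w * s)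
  /-- the coordinates other than `p`, `z` are full over the labels -/
  pr0 : ∀ ⦃s a : ℝ⦄, 0 ≤ s → w' * s ≤ a → a ≤ A → φ s (P a) = n * a - W * s
  /-- digits -/
  dig : ∀ ⦃a b : ℝ⦄, 0 ≤ a → a ≤ b → b ≤ A → φ 0 (p b ⊔ p a) - φ 0 (p a) ≤ b - a

namespace SwpD

variable (T : SwpD L)

theorem hw' : 0 < T.w' := T.hw.trans_le T.hww

/-- depth of `z` -/
noncomputable def C : ℝ := T.w / T.w' * T.A

/-- all digits -/
noncomputable def X : L := T.P T.A ⊔ T.p T.A ⊔ T.z T.C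

theorem w'C : T.w' * T.C = T.w * T.A := by
  have := T.hw'
  unfold C
  field_simp

/-- the label says nothing beyond the point with `z` to level `b ≥ w s` -/
theorem vis {s b a : ℝ} (hs : 0 ≤ s) (hb : T.w * s ≤ b) (hba : T.w' * b ≤ T.w * a) (hA : a ≤ T.A) :
    T.J s T.X (T.P a ⊔ T.p a ⊔ T.z b) = 0 := by
  have hw := T.hw
  have hw' := T.hw'
  have hb0 : 0 ≤ b := (mul_nonneg hw.le hs).trans hb
  have ha0 : 0 ≤ a := by nlinarith
  have hbC : b ≤ T.C := by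
    have h1 := T.w'C
    have h2 : T.w' * b ≤ T.w' * T.C := by rw [h1]; exact hba.trans (mul_le_mul_of_nonneg_left hA hw.le)
    exact le_of_mul_le_mul_left h2 hw'
  have hCA : T.C ≤ T.A := by
    have h1 := T.w'C
    have h2 : T.w * T.A ≤ T.w' * T.A := mul_le_mul_of_nonneg_right T.hww (ha0.trans hA)
    exact le_of_mul_le_mul_left (h1.le.trans h2) hw'
  have h1 : T.P a ⊔ T.p a ⊔ T.z b ≤ T.X := by
    unfold X
    exact sup_le_sup (sup_le_sup (T.monoP ha0 hA le_rfl) (T.monop ha0 hA le_rfl)) (T.monoz hb0 hbC hCA)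
  have n1 := T.num hs (hb.trans hbC) T.w'C.le le_rfl
  have n2 := T.num (le_refl (0 : ℝ)) (b := T.C) (a := T.A) (by rw [mul_zero]; exact hb0.trans hbC) T.w'C.le le_rfl
  have n3 := T.num hs hb hba hA
  have n4 := T.num (le_refl (0 : ℝ)) (b := b) (a := a) (by rw [mul_zero]; exact hb0) hba hA
  unfold Ent.J Ent.c
  rw [sup_eq_left.mpr h1]
  unfold X
  rw [n1, n2, n3, n4]
  ring

/-- thickness of the box in the directions `p`, `z` -/
theorem thick {s : ℝ} (hs : 0 ≤ s) (hA : T.w' * s ≤ T.A) :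
    T.c s (T.p (T.w' * s) ⊔ T.z (T.w * s)) (T.P (T.w' * s)) = 0 := by
  have h1 := T.num hs (le_refl (T.w * s)) (a := T.w' * s) (by ring_nf; rfl) hA
  have h2 := T.pr0 hs (le_refl (T.w' * s)) hA
  have h3 : T.p (T.w' * s) ⊔ T.z (T.w * s) ⊔ T.P (T.w' * s) = T.P (T.w' * s) ⊔ T.p (T.w' * s) ⊔ T.z (T.w * s) := by
    rw [sup_comm, sup_assoc]
  unfold Ent.c
  rw [h3, h1, h2]; ring

/-- **the label is a function of the point with `p` to level `w' s`** -/
theorem vis' {s a : ℝ} (hs : 0 ≤ s) (ha : T.w' * s ≤ a) (hA : a ≤ T.A) :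
    T.J s T.X (T.P a ⊔ T.z (T.w * s) ⊔ T.p (T.w' * s)) = 0 := by
  have hk0 : 0 ≤ T.w' * s := mul_nonneg T.hw'.le hs
  have hz0 : 0 ≤ T.w * s := mul_nonneg T.hw.le hs
  have hzk : T.w * s ≤ T.w' * s := mul_le_mul_of_nonneg_right T.hww hs
  have ha0 : 0 ≤ a := hk0.trans ha
  obtain ⟨k, hk⟩ : ∃ k, k = T.w' * s := ⟨_, rfl⟩
  obtain ⟨Y, hY⟩ : ∃ Y, Y = T.P a ⊔ T.z (T.w * s) ⊔ T.p k := ⟨_, rfl⟩
  rw [← hk] at ha hk0 hzk ⊢
  rw [← hY]
  -- `p_a` given `Y` is full over the label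
  have e1 : T.p a ⊔ Y = T.P a ⊔ T.p a ⊔ T.z (T.w * s) := by
    rw [hY]
    apply le_antisymm
    · refine sup_le (le_sup_right.trans le_sup_left) (sup_le (sup_le (le_sup_left.trans le_sup_left) le_sup_right) ?_)
      exact (T.monop hk0 ha hA).trans (le_sup_right.trans le_sup_left)
    · refine sup_le (sup_le ?_ le_sup_left) ?_
      · exact le_sup_left.trans (le_sup_left.trans le_sup_right)
      · exact le_sup_right.trans (le_sup_left.trans le_sup_right)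
  have hnum := T.num hs (le_refl (T.w * s)) (a := a) (by nlinarith [T.hw]) hA
  have hpr0 := T.pr0 hs (hk ▸ ha) hA
  have hYφ : T.φ s Y ≤ T.n * a - T.W * s := by
    have t1 := T.thick hs (hk ▸ ha.trans hA)
    rw [← hk] at t1
    have t2 := T.c_anti hs (T.p k ⊔ T.z (T.w * s)) (T.monoP hk0 ha hA)
    have t3 := T.c_nonneg hs (T.p k ⊔ T.z (T.w * s)) (T.P a)
    have t4 : T.c s (T.p k ⊔ T.z (T.w * s)) (T.P a) = 0 := by linarith
    have t5 : T.p k ⊔ T.z (T.w * s) ⊔ T.P a = Y := by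
      rw [hY]
      apply le_antisymm
      · exact sup_le (sup_le le_sup_right (le_sup_right.trans le_sup_left)) (le_sup_left.trans le_sup_left)
      · exact sup_le (sup_le le_sup_right (le_sup_right.trans le_sup_left)) (le_sup_left.trans le_sup_left)
    unfold Ent.c at t4
    rw [t5] at t4
    linarith
  have hfull : a - k ≤ T.c s (T.p a) Y := by
    unfold Ent.c
    rw [e1, hnum, ← hk]
    linarith
  have hup : T.c 0 (T.p a) Y ≤ a - k := by
    have t1 := T.c_anti le_rfl (T.p a) (Y := T.p k) (Y' := Y) (by rw [hY]; exact le_sup_right)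
    have t2 := T.dig hk0 ha hA
    unfold Ent.c at t1 ⊢
    linarith
  have hJp : T.J s (T.p a) Y = 0 := by
    have := T.J_nonneg hs (T.p a) Y
    unfold Ent.J at this ⊢
    linarith
  have hv := T.vis hs (le_refl (T.w * s)) (a := a) (by nlinarith [T.hw]) hA
  rw [← e1] at hv
  have e2 := T.J_chain s T.X (T.p a) Y
  have e3 : T.J s T.X (T.p a ⊔ Y) = 0 := hv
  have e4 : T.J s (T.X ⊔ T.p a) Y = T.J s T.X Y := by
    apply T.J_congr
    have h1 : T.p a ≤ T.X := (T.monop ha0 hA le_rfl).trans (le_sup_right.trans le_sup_left)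
    rw [sup_eq_left.mpr h1]
  rw [e4, hJp, e3] at e2
  linarith

/-- deficit of `p` -/
noncomputable def ρ' : ℝ := T.ρ * T.w / T.w'

theorem ρ'_mul : (1 - T.ρ') * T.w' = T.w' - T.ρ * T.w := by
  have := T.hw'
  unfold ρ'
  field_simp

theorem φ_X_sub {s : ℝ} (hs : 0 ≤ s) {a b : ℝ} (h1 : T.w * s ≤ b) (h0 : 0 ≤ b) (h2 : T.w' * b ≤ T.w * a)
    (hA : a ≤ T.A) : T.φ 0 (T.P a ⊔ T.p a ⊔ T.z b) - T.φ s (T.P a ⊔ T.p a ⊔ T.z b) =
      (T.W + T.w' + (1 - T.ρ) * T.w) * s := by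
  rw [T.num hs h1 h2 hA, T.num le_rfl (by rw [mul_zero]; exact h0) h2 hA]
  ring

/-- **SWAP**: the numbers with respect to `p` -/
theorem swap {s b a : ℝ} (hs : 0 ≤ s) (hb : T.w' * s ≤ b) (hba : b ≤ a) (hA : T.w' * a ≤ T.w * T.A) :
    T.φ s (T.P a ⊔ T.z a ⊔ T.p b) = T.n * a - T.W * s + (a - T.w * s) + (1 - T.ρ') * (b - T.w' * s) := by
  have hw := T.hw
  have hw' := T.hw'
  have hww := T.hww
  have hb0 : 0 ≤ b := (mul_nonneg hw'.le hs).trans hb
  have ha0 : 0 ≤ a := hb0.trans hba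
  have hAA : a ≤ T.A := by
    by_contra hc
    push Not at hc
    have h1 : T.w * T.A < T.w * a := by nlinarith
    have h2 : T.w * a ≤ T.w' * a := mul_le_mul_of_nonneg_right hww ha0
    linarith
  have hA0 : 0 ≤ T.A := ha0.trans hAA
  obtain ⟨r, hr⟩ : ∃ r, T.w' * r = b := ⟨b / T.w', by field_simp⟩
  have hr0 : 0 ≤ r := by
    by_contra hc
    push Not at hc
    nlinarith
  have hsr : s ≤ r := by
    by_contra hc
    push Not at hc
    nlinarith
  obtain ⟨Y, hY⟩ : ∃ Y, Y = T.P a ⊔ T.z a ⊔ T.p b := ⟨_, rfl⟩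
  obtain ⟨V, hV⟩ : ∃ V, V = T.P T.A ⊔ T.p T.A ⊔ T.z a := ⟨_, rfl⟩
  have haC : a ≤ T.C := by
    have h1 := T.w'C
    exact le_of_mul_le_mul_left (hA.trans h1.ge) hw'
  have hCA : T.C ≤ T.A := by
    have h1 := T.w'C
    have h2 : T.w * T.A ≤ T.w' * T.A := mul_le_mul_of_nonneg_right T.hww hA0
    exact le_of_mul_le_mul_left (h1.le.trans h2) hw'
  have hYV : Y ≤ V := by
    rw [hY, hV]
    refine sup_le (sup_le ?_ le_sup_right) ?_
    · exact (T.monoP ha0 hAA le_rfl).trans (le_sup_left.trans le_sup_left)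
    · exact (T.monop hb0 (hba.trans hAA) le_rfl).trans (le_sup_right.trans le_sup_left)
  have hVX : V ≤ T.X := by
    rw [hV]
    exact sup_le le_sup_left ((T.monoz ha0 haC hCA).trans le_sup_right)
  -- the labels say nothing about `V` given `Y`
  have key : ∀ c : ℝ, 0 ≤ c → c ≤ r → T.φ c V - T.φ c Y = T.φ 0 V - T.φ 0 Y := by
    intro c hc hcr
    have hcb : T.w' * c ≤ b := by rw [← hr]; exact mul_le_mul_of_nonneg_left hcr hw'.le
    have hwc : T.w * c ≤ T.w' * c := mul_le_mul_of_nonneg_right hww hc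
    have hwc0 : 0 ≤ T.w * c := mul_nonneg hw.le hc
    have h1 := T.vis' hc (hcb.trans hba) hAA
    have h2 : T.J c T.X Y = 0 := by
      apply T.J_zero hc h1
      · rw [hY]
        refine sup_le (sup_le (le_sup_left.trans le_sup_left) ?_) ?_
        · exact (T.monoz hwc0 (hwc.trans (hcb.trans hba)) hAA).trans (le_sup_right.trans le_sup_left)
        · exact (T.monop (hwc0.trans hwc) hcb (hba.trans hAA)).trans le_sup_right
      · exact hYV.trans (hVX.trans le_sup_left)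
    -- monotonicity
    have h3 := T.J_chain c T.X V Y
    have e1 : T.J c (T.X ⊔ V) Y = T.J c T.X Y := by rw [sup_eq_left.mpr hVX]
    have h4 := T.J_nonneg hc V Y
    have h5 := T.J_nonneg hc T.X (V ⊔ Y)
    have h6 : T.J c V Y = 0 := by linarith
    unfold Ent.J Ent.c at h6
    rw [sup_eq_left.mpr hYV] at h6
    linarith
  have k1 := key s hs hsr
  have k2 := key r hr0 le_rfl
  have hbr : T.w' * r ≤ a := by rw [hr]; exact hba
  have hwr : T.w * r ≤ a := (mul_le_mul_of_nonneg_right hww hr0).trans hbr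
  have hws : T.w * s ≤ a := (mul_le_mul_of_nonneg_left hsr hw.le).trans hwr
  have hx1 : T.φ 0 V - T.φ s V = (T.W + T.w' + (1 - T.ρ) * T.w) * s := by
    rw [hV]
    exact T.φ_X_sub hs (a := T.A) (b := a) hws ha0 hA le_rfl
  have hx2 : T.φ 0 V - T.φ r V = (T.W + T.w' + (1 - T.ρ) * T.w) * r := by
    rw [hV]
    exact T.φ_X_sub hr0 (a := T.A) (b := a) hwr ha0 hA le_rfl
  -- over the label of window `r` the digits `p_b` are known
  have hYr : T.φ r Y = T.n * a - T.W * r + (a - T.w * r) := by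
    rw [← T.pr hr0 hbr hAA]
    apply le_antisymm
    · have t1 := T.thick hr0 (hbr.trans hAA)
      have hk0 : 0 ≤ T.w' * r := mul_nonneg hw'.le hr0
      have t2 := T.c_mono hr0 (X := T.p b) (X' := T.p (T.w' * r) ⊔ T.z (T.w * r)) (T.P (T.w' * r))
        (by rw [hr]; exact le_sup_left.trans le_sup_left)
      have t3 := T.c_anti hr0 (T.p b) (Y := T.P (T.w' * r)) (Y' := T.P a ⊔ T.z a)
        ((T.monoP hk0 hbr hAA).trans le_sup_left)
      have t4 : T.p b ⊔ (T.P a ⊔ T.z a) = Y := by rw [hY, sup_comm]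
      unfold Ent.c at t1 t2 t3
      rw [t4] at t3
      linarith
    · rw [hY]
      exact T.mono hr0 le_sup_left
  rw [← hY]
  have e2 := T.ρ'_mul
  have e3 : (1 - T.ρ') * (b - T.w' * s) = (T.w' - T.ρ * T.w) * (r - s) := by
    rw [← hr, ← e2]; ring
  rw [e3]
  linarith

end SwpD

open Pool.Agent.Helper31.EC in
/-- labels which are elements of an entropy lattice -/
def entPM {L : Type*} [PM L] (be : ℝ → L) (h0 : ∀ ⦃s : ℝ⦄, 0 ≤ s → be 0 ≤ be s) : Ent L where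
  φ s X := h X (be s)
  mono _ _ _ _ hXY := h_mono hXY
  sub s _ X Y Z := by
    have h1 := PM.H_sub X Y (Z ⊔ be s)
    unfold h
    have e1 : X ⊔ Y ⊔ Z ⊔ be s = X ⊔ Y ⊔ (Z ⊔ be s) := by rw [sup_assoc (X ⊔ Y)]
    have e2 : X ⊔ Z ⊔ be s = X ⊔ (Z ⊔ be s) := by rw [sup_assoc]
    have e3 : Y ⊔ Z ⊔ be s = Y ⊔ (Z ⊔ be s) := by rw [sup_assoc]
    rw [e1, e2, e3]
    linarith
  anti s hs X Y := by
    have h1 := h_chain Y X (be s)
    have h2 := h_chain Y X (be 0)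
    have h3 : h X (Y ⊔ be s) ≤ h X (Y ⊔ be 0) := h_anti (sup_le_sup_left (h0 hs) Y)
    have e : X ⊔ Y = Y ⊔ X := sup_comm _ _
    rw [e]
    linarith

end Pool.Agent.Helper33.CM
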